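import Pool.Agent.H53.FC.Core
import Pool.Agent.H58.SF.Fin
import Pool.Agent.H21.SF.OS
import Pool.Agent.H21.SF.TK

/-!
# Structures with the finite images of a rigid structure
-/

set_option autoImplicit false

namespace Pool.Agent.H53.FC

open Pool.Agent.H68.BP Pool.Agent.H58.SF Pool.Agent.H53.RG

variable {σ : Sig} {V S T : Type} {Λ : (l : Fin σ.m) → Fin (σ.ar l) → Prop}
  {𝔸 : Str σ V} {𝕊 : Str σ S} {𝕋 : Str σ T}

/-- Compactness. -/
theorem olsak_compact [Finite T] [Nonempty T]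
    (h : ∀ F : Finset V, HasOlsak (fun l (x : Fin (σ.ar l) → F) => 𝔸 l (fun i => (x i : V))) 𝕋) :
    ∃ h : (Fin 6 → V) → T, IsPoly 𝔸 𝕋 h ∧ Ols h := by
  classical
  choose o ho hid using h
  let o' : Finset V → (Fin 6 → V) → T := fun F x =>
    if hx : ∀ i, x i ∈ F then o F (fun i => ⟨x i, hx i⟩) else Classical.arbitrary T
  obtain ⟨h', spec⟩ : ∃ h' : (Fin 6 → V) → T, ∀ x : Fin 6 → V,
      ∀ᶠ F in ((cone V : Ultrafilter (Finset V)) : Filter (Finset V)), o' F x = h' x :=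
    ⟨fun x => ulim (cone V) (fun F => o' F x), fun x => ulim_spec (cone V) (fun F => o' F x)⟩
  have ho' : ∀ F x (hx : ∀ i, x i ∈ F), o' F x = o F (fun i => ⟨x i, hx i⟩) := by
    intro F x hx
    simp only [o', dif_pos hx]
  refine ⟨h', ?_, ?_⟩
  · intro l x hx
    have h1 : ∀ᶠ F in ((cone V : Ultrafilter (Finset V)) : Filter (Finset V)),
        ∀ k, o' F (fun i => x i k) = h' (fun i => x i k) := by
      rw [Filter.eventually_all]
      exact fun k => spec _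
    obtain ⟨F, h2, hF⟩ := (h1.and (cone_mem (Finset.univ.biUnion fun i : Fin 6 =>
      Finset.univ.image (x i)))).exists
    have hxF : ∀ i k, x i k ∈ F := fun i k => hF (Finset.mem_biUnion.2 ⟨i, Finset.mem_univ _,
      Finset.mem_image_of_mem _ (Finset.mem_univ k)⟩)
    have h3 : (fun k => h' (fun i => x i k)) =
        fun k => o F (fun i => ⟨x i k, hxF i k⟩) := by
      funext k
      rw [← h2 k, ho' F _ fun i => hxF i k]
    rw [h3]
    exact ho F l (fun i k => ⟨x i k, hxF i k⟩) hx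
  · intro x y
    obtain ⟨F, h1, h2, h3, hF⟩ := ((spec ![x, x, y, y, y, x]).and
      ((spec ![x, y, x, y, x, y]).and ((spec ![y, x, x, x, y, y]).and
        (cone_mem {x, y})))).exists
    have hx : x ∈ F := hF (by simp)
    have hy : y ∈ F := hF (by simp)
    obtain ⟨e1, e2⟩ := hid F ⟨x, hx⟩ ⟨y, hy⟩
    have key : ∀ (a b c d e f : F),
        o' F ![a.1, b.1, c.1, d.1, e.1, f.1] = o F ![a, b, c, d, e, f] := by
      intro a b c d e f
      rw [ho' F _ (by intro i; fin_cases i <;> simp)]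
      congr 1
      funext i
      fin_cases i <;> rfl
    have k1 := key ⟨x, hx⟩ ⟨x, hx⟩ ⟨y, hy⟩ ⟨y, hy⟩ ⟨y, hy⟩ ⟨x, hx⟩
    have k2 := key ⟨x, hx⟩ ⟨y, hy⟩ ⟨x, hx⟩ ⟨y, hy⟩ ⟨x, hx⟩ ⟨y, hy⟩
    have k3 := key ⟨y, hy⟩ ⟨x, hx⟩ ⟨x, hx⟩ ⟨x, hx⟩ ⟨y, hy⟩ ⟨y, hy⟩
    dsimp only at k1 k2 k3
    rw [← h1, ← h2, ← h3, k1, k2, k3]
    exact ⟨e1, e2⟩

theorem K3_of_no_olsak [Nonempty V] (hV : Countable V) (hol : Oligo 𝔸) [Finite T]
    (hc : ∃ c, IsHom 𝔸 𝕋 c) (h : ∀ h : (Fin 6 → V) → T, IsPoly 𝔸 𝕋 h → Ols h → False) :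
    PPConstructsK3 𝔸 := by
  classical
  obtain ⟨c, hc⟩ := hc
  have hne : Nonempty T := ⟨c (Classical.arbitrary V)⟩
  by_contra hK
  have h1 : ∀ F : Finset V, HasOlsak
      (fun l (x : Fin (σ.ar l) → F) => 𝔸 l (fun i => (x i : V))) 𝕋 := by
    intro F
    by_contra hcon
    apply hK
    refine criterion (Pool.Agent.H21.SF.pf_OS Pool.Agent.H21.SF.pf_TK)
      (𝕊 := fun l (x : Fin (σ.ar l) → F) => 𝔸 l (fun i => (x i : V))) (𝕋 := 𝕋)
      inferInstance hV hol ⟨Subtype.val, fun _ _ hx => hx⟩ ⟨c, hc⟩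
      (Or.inr (Or.inr ⟨inferInstance, hcon⟩))
  obtain ⟨h', hh, ho⟩ := olsak_compact h1
  exact h h' hh ho

/-- The theorem for structures with mixing. -/
theorem rigid_K3 [Nonempty V] (hV : Countable V) (hol : Oligo 𝔸) (hR : RigidPair Λ 𝕊 𝕋)
    (hI : MapsToImages 𝕊 𝔸) (hc : ∃ c, IsHom 𝔸 𝕋 c)
    (hm : ∃ L, ∀ y z, y ∈ Reach Λ 𝔸 z L) : PPConstructsK3 𝔸 := by
  have := hR.finT
  obtain ⟨L, hL⟩ := hm
  obtain ⟨p, hp⟩ := exists_family hI
  exact K3_of_no_olsak hV hol hc fun h hh ho => no_olsak_core hR hp (C := Set.univ)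
    (fun s => Filter.univ_mem) (fun y _ z _ => hL y z) hh ho

end Pool.Agent.H53.FC
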