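import Pool.Agent.H53.FC.Main
import Pool.Agent.H53.RG.Comp
import Pool.Agent.H53.RG.DT
import Pool.Agent.H53.SF.NB

/-!
# Undirected graphs with the finite images of a rigid graph
-/

set_option autoImplicit false

namespace Pool.Agent.H53.FC

open Pool.Agent.H68.BP Pool.Agent.H58.SF Pool.Agent.H53.RG

variable {V S T : Type} {E : V → V → Prop} {R : S → S → Prop} {R' : T → T → Prop}

/-- The finite graphs `(S; R)` and `(T; R')` form a rigid pair: `(S; R)` is undirected, connected
and not bipartite, `(T; R')` has no loops, each homomorphism from the sixth power of `(S; R)` to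
`(T; R')` depends on one coordinate only, and no two homomorphisms from `(S; R)` to `(T; R')` differ
in exactly one vertex. -/
structure RigidGraphs (R : S → S → Prop) (R' : T → T → Prop) : Prop where
  finS : Finite S
  finT : Finite T
  symm : ∀ s t, R s t → R t s
  conn : ∀ s t, Relation.ReflTransGen R s t
  nonbip : ¬ ∃ c : S → Bool, ∀ s t, R s t → c s ≠ c t
  irr : ∀ t, ¬ R' t t
  unary : ∀ f : (Fin 6 → S) → T, (∀ x y, (∀ i, R (x i) (y i)) → R' (f x) (f y)) →
    ∃ (i : Fin 6) (β : S → T), ∀ x, f x = β (x i)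
  isolated : ∀ β β' : S → T, (∀ s t, R s t → R' (β s) (β t)) →
    (∀ s t, R s t → R' (β' s) (β' t)) → ∀ s, (∀ t, t ≠ s → β t = β' t) → β s = β' s

/-- `(S; R)` has a homomorphism to each finite graph to which `(V; E)` has a homomorphism. -/
def MapsToFiniteImages (R : S → S → Prop) (E : V → V → Prop) : Prop :=
  ∀ (H : Type) [Finite H] (Q : H → H → Prop), (∀ a b, Q a b → Q b a) →
    (∃ c : V → H, ∀ x y, E x y → Q (c x) (c y)) → ∃ φ : S → H, ∀ s t, R s t → Q (φ s) (φ t)

theorem RigidGraphs.exists_edge (hR : RigidGraphs R R') : ∃ s t, R s t := by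
  by_contra hcon
  push Not at hcon
  exact hR.nonbip ⟨fun _ => true, fun s t h => absurd h (hcon s t)⟩

theorem RigidGraphs.rigidPair (hR : RigidGraphs R R') :
    RigidPair (fun _ _ => True) (graph R) (graph R') := by
  classical
  refine ⟨hR.finS, hR.finT, ?_, ?_, ?_⟩
  · intro f hf
    refine hR.unary f fun x y hxy => ?_
    exact hf (0 : Fin 1) (fun i => ![x i, y i]) hxy
  · intro u hu
    obtain ⟨s, t, hst⟩ := hR.exists_edge
    exact hR.irr u (hu (0 : Fin 1) ![s, t] hst)
  · intro β hβ s u hu
    have hβ' : ∀ s t, R s t → R' (β s) (β t) := fun s t hst => hβ (0 : Fin 1) ![s, t] hst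
    have h1 := hR.isolated β (Function.update β s u) hβ' ?_ s ?_
    · rw [h1, Function.update_self]
    · intro a b hab
      by_cases ha : a = s
      · subst ha
        by_cases hb : b = a
        · subst hb
          exact absurd (hβ' _ _ hab) (hR.irr _)
        · rw [Function.update_self, Function.update_of_ne hb]
          have h2 := hu (0 : Fin 1) (0 : Fin 2) trivial ![a, b] hab rfl
          exact h2
      · by_cases hb : b = s
        · subst hb
          rw [Function.update_self, Function.update_of_ne ha]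
          have h2 := hu (0 : Fin 1) (1 : Fin 2) trivial ![a, b] hab rfl
          exact h2
        · rw [Function.update_of_ne ha, Function.update_of_ne hb]
          exact hβ' _ _ hab
    · intro t ht
      rw [Function.update_of_ne ht]

theorem mapsToImages (hs : ∀ x y, E x y → E y x) (h : MapsToFiniteImages R E) :
    MapsToImages (graph R) (graph E) := by
  intro H _ ℍ ⟨c, hc⟩
  have h0 : ∀ x y, E x y → ℍ (0 : Fin 1) ![c x, c y] ∧ ℍ (0 : Fin 1) ![c y, c x] := by
    intro x y hxy
    have h1 := hc (0 : Fin 1) ![x, y] hxy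
    have h2 := hc (0 : Fin 1) ![y, x] (hs _ _ hxy)
    have e1 : (fun i => c ((![x, y] : Fin 2 → V) i)) = ![c x, c y] := by
      funext i
      fin_cases i <;> rfl
    have e2 : (fun i => c ((![y, x] : Fin 2 → V) i)) = ![c y, c x] := by
      funext i
      fin_cases i <;> rfl
    rw [← e1, ← e2]
    exact ⟨h1, h2⟩
  obtain ⟨φ, hφ⟩ := h H (fun a b => ℍ (0 : Fin 1) ![a, b] ∧ ℍ (0 : Fin 1) ![b, a])
    (fun a b h => ⟨h.2, h.1⟩) ⟨c, h0⟩
  refine ⟨φ, ?_⟩
  have key : ∀ x : Fin 2 → S, R (x 0) (x 1) → ℍ (0 : Fin 1) (fun i => φ (x i)) := by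
    intro x hx
    have h1 := (hφ (x 0) (x 1) hx).1
    have h2 : (![φ (x 0), φ (x 1)] : Fin 2 → H) = fun i => φ (x i) := by
      funext i
      fin_cases i <;> rfl
    rw [h2] at h1
    exact h1
  intro l x hx
  have h3 : l = (0 : Fin 1) := Subsingleton.elim (α := Fin 1) _ _
  subst h3
  exact key x hx

/-- An endomorphism with image in finitely many components. -/
theorem exists_retract (hol : Oligo (graph E)) (hs : ∀ x y, E x y → E y x) :
    ∃ (P : Finset V) (r : V → V), (∀ x y, E x y → E (r x) (r y)) ∧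
      ∀ x, ∃ y ∈ P, Relation.ReflTransGen E y (r x) := by
  classical
  obtain ⟨P, hP⟩ := hol 1
  choose y hy g hg hgy using fun u : V => hP (fun _ => u)
  let comp : V → Set V := fun z => {y | Relation.ReflTransGen E z y}
  have hcomp : ∀ z z', Relation.ReflTransGen E z z' → comp z' = comp z := by
    intro z z' h
    ext y
    exact ⟨fun hy => h.trans hy, fun hy => (rtg_symm hs h).trans hy⟩
  let root : Set V → V → V := fun K v => if h : K.Nonempty then h.choose else v
  have hroot : ∀ v w, root (comp v) w ∈ comp v := by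
    intro v w
    have h : (comp v).Nonempty := ⟨v, Relation.ReflTransGen.refl⟩
    simp only [root, dif_pos h]
    exact h.choose_spec
  have hroot' : ∀ v w w', root (comp v) w = root (comp v) w' := by
    intro v w w'
    have h : (comp v).Nonempty := ⟨v, Relation.ReflTransGen.refl⟩
    simp only [root, dif_pos h]
  have hsymm : ∀ u a b, E a b → E ((g u).symm a) ((g u).symm b) := by
    intro u a b hab
    have h1 := (hg u (0 : Fin 1) ![(g u).symm a, (g u).symm b]).2
    refine h1 ?_
    show E (g u ((g u).symm a)) (g u ((g u).symm b))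
    rw [Equiv.apply_symm_apply, Equiv.apply_symm_apply]
    exact hab
  refine ⟨P.image fun y => y 0, fun x => (g (root (comp x) x)).symm x, ?_, ?_⟩
  · intro a b hab
    have h1 : root (comp b) b = root (comp a) a := by
      rw [hcomp a b (Relation.ReflTransGen.single hab)]
      exact hroot' a b a
    show E ((g (root (comp a) a)).symm a) ((g (root (comp b) b)).symm b)
    rw [h1]
    exact hsymm _ _ _ hab
  · intro x
    refine ⟨y (root (comp x) x) 0, Finset.mem_image_of_mem _ (hy _), ?_⟩
    have h1 := rtg_map (hsymm (root (comp x) x)) (rtg_symm hs (hroot x x))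
    have h2 : (g (root (comp x) x)).symm (root (comp x) x) = y (root (comp x) x) 0 := by
      rw [Equiv.symm_apply_eq]
      exact (hgy (root (comp x) x) 0).symm
    rw [h2] at h1
    exact h1

/-- THEOREM: undirected graphs with the finite images of a rigid graph. -/
theorem rigid_graph_K3 (hV : Countable V) (hol : Oligo (graph E)) (hs : ∀ x y, E x y → E y x)
    (hR : RigidGraphs R R') (hI : MapsToFiniteImages R E)
    (hc : ∃ c : V → T, ∀ x y, E x y → R' (c x) (c y)) : PPConstructsK3 (graph E) := by
  classical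
  have := hR.finS
  have := hR.finT
  obtain ⟨s₀, t₀, hst₀⟩ := hR.exists_edge
  have hne : Nonempty V := by
    by_contra hcon
    rw [not_nonempty_iff] at hcon
    obtain ⟨φ, _⟩ := hI Empty (fun _ _ => True) (fun _ _ _ => trivial)
      ⟨fun v => isEmptyElim v, fun v => isEmptyElim v⟩
    exact isEmptyElim (φ s₀)
  obtain ⟨p₀, hp₀⟩ := exists_family (mapsToImages hs hI)
  obtain ⟨P, r, hr, hP⟩ := exists_retract hol hs
  have hp := hp₀.map (r := r) (fun l x hx => hr _ _ hx)
  set p : S → Ultrafilter V := fun s => (p₀ s).map r with hpdef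
  -- adjacent ultrafilters
  have hadj : ∀ s t, R s t → ∀ A B : Set V, A ∈ p s → B ∈ p t → ∃ a ∈ A, ∃ b ∈ B, E a b := by
    intro s t hst A B hA hB
    obtain ⟨a, ha, h1⟩ := hp (0 : Fin 1) ![s, t] hst ![A, B] (by
      intro j
      fin_cases j
      · exact hA
      · exact hB)
    exact ⟨a (0 : Fin 2), h1 (0 : Fin 2), a (1 : Fin 2), h1 (1 : Fin 2), ha⟩
  -- the component
  have hcomp : ∀ s, ∃ y ∈ P, {x | Relation.ReflTransGen E y x} ∈ p s := by
    intro s
    have h1 : (⋃ y ∈ (P : Set V), {x | Relation.ReflTransGen E y x}) ∈ p s := by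
      have h2 : ∀ x, r x ∈ ⋃ y ∈ (P : Set V), {x | Relation.ReflTransGen E y x} := by
        intro x
        obtain ⟨y, hy, hyx⟩ := hP x
        exact Set.mem_biUnion (show y ∈ (P : Set V) from hy) hyx
      exact Filter.Eventually.of_forall (f := (p₀ s : Filter V)) h2
    rw [Ultrafilter.finite_biUnion_mem_iff P.finite_toSet] at h1
    exact h1
  obtain ⟨y₀, hy₀P, hy₀⟩ := hcomp s₀
  set C : Set V := {x | Relation.ReflTransGen E y₀ x} with hCdef
  have hC : ∀ s, C ∈ p s := by
    intro s
    have h1 := hR.conn s₀ s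
    induction h1 with
    | refl => exact hy₀
    | @tail s t _ hst ih =>
      obtain ⟨y, hy, hyt⟩ := hcomp t
      obtain ⟨a, ha, b, hb, hab⟩ := hadj s t hst _ _ ih hyt
      have h2 : {x | Relation.ReflTransGen E y x} = C := by
        have h3 : Relation.ReflTransGen E y₀ y :=
          (ha.tail hab).trans (rtg_symm hs hb)
        ext x
        exact ⟨fun hx => h3.trans hx, fun hx => (rtg_symm hs h3).trans hx⟩
      rw [h2] at hyt
      exact hyt
  -- an odd closed walk in the component
  have hodd : OddWalk (fun x y => E x y ∧ x ∈ C ∧ y ∈ C) := by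
    by_contra hcon
    obtain ⟨κ, hκ⟩ := Pool.Agent.H53.SF.pf_NB V (fun x y => E x y ∧ x ∈ C ∧ y ∈ C)
      (fun a b hab => ⟨hs _ _ hab.1, hab.2.2, hab.2.1⟩) hcon
    choose b hb using fun s => exists_lim (p s) κ
    refine hR.nonbip ⟨b, fun s t hst he => ?_⟩
    obtain ⟨x, hx, y, hy, hxy⟩ := hadj s t hst _ _ (Filter.inter_mem (hb s) (hC s))
      (Filter.inter_mem (hb t) (hC t))
    have h1 : κ x = b s := hx.1
    have h2 : κ y = b t := hy.1
    exact hκ x y ⟨hxy, hx.2, hy.2⟩ (by rw [h1, h2, he])
  obtain ⟨n, w, hw, hper⟩ := hodd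
  have hwalk : ∀ m k, Walk E m (w k) (w (k + m)) := by
    intro m
    induction m with
    | zero => exact fun k => rfl
    | succ m ih =>
      intro k
      refine ⟨w (k + 1), (hw k).1, ?_⟩
      have := ih (k + 1)
      rwa [show k + 1 + m = k + (m + 1) by omega] at this
  have hclosed : Walk E (2 * n + 1) (w 0) (w 0) := by
    have h1 := hwalk (2 * n + 1) 0
    rwa [hper] at h1
  obtain ⟨P2, hP2⟩ := hol 2
  obtain ⟨L, hL⟩ := uniform_walk hs ⟨P2, fun x => by
    obtain ⟨y, hy, g, hg, hgy⟩ := hP2 x
    refine ⟨y, hy, g, fun a b => ?_, hgy⟩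
    exact hg (0 : Fin 1) ![a, b]⟩ (m := 2 * n + 1) ⟨n, rfl⟩ hclosed
  have hreach : ∀ k y z, Walk E k y z → y ∈ Reach (σ := Sig.digraph) (fun _ _ => True)
      (graph E) z k := by
    intro k
    induction k with
    | zero => exact fun y z h => h
    | succ k ih =>
      rintro y z ⟨w, hw, h⟩
      intro l j _
      have hj : j = (0 : Fin 2) ∨ j = (1 : Fin 2) := by
        revert j
        change ∀ j : Fin 2, j = 0 ∨ j = 1
        decide
      rcases hj with rfl | rfl
      · refine ⟨![y, w], hw, rfl, fun j' hj' => ?_⟩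
        have h1 : j' = (1 : Fin 2) := by
          revert j'
          change ∀ j' : Fin 2, j' ≠ 0 → j' = 1
          decide
        subst h1
        exact ih w z h
      · refine ⟨![w, y], hs _ _ hw, rfl, fun j' hj' => ?_⟩
        have h1 : j' = (0 : Fin 2) := by
          revert j'
          change ∀ j' : Fin 2, j' ≠ 1 → j' = 0
          decide
        subst h1
        exact ih w z h
  have hwC : ∀ y ∈ C, Relation.ReflTransGen E (w 0) y := fun y hy =>
    (rtg_symm hs (hw 0).2.1).trans hy
  obtain ⟨c, hc⟩ := hc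
  exact K3_of_no_olsak hV hol (𝕋 := graph R') ⟨c, fun l x hx => hc _ _ hx⟩ fun h hh ho =>
    no_olsak_core hR.rigidPair hp hC
      (fun y hy z hz => hreach L y z (hL y z (hwC y hy) (hwC z hz))) hh ho

/-- projective cores -/
theorem ProjectiveCore.rigidGraphs {R : T → T → Prop} (hR : ProjectiveCore R) :
    RigidGraphs R R := by
  classical
  refine ⟨hR.fin, hR.fin, hR.symm, hR.conn, hR.nonbip, hR.irr, ?_, ?_⟩
  · intro f hf
    obtain ⟨i, α, _, h⟩ := hR.proj f hf
    exact ⟨i, α, h⟩
  · intro β β' hβ hβ' s h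
    obtain ⟨i, α, hα, h1⟩ := hR.proj (fun x => β (x 0)) fun x y hxy => hβ _ _ (hxy 0)
    obtain ⟨i', α', hα', h1'⟩ := hR.proj (fun x => β' (x 0)) fun x y hxy => hβ' _ _ (hxy 0)
    have h2 : ∀ t, β t = α t := fun t => h1 fun _ => t
    have h2' : ∀ t, β' t = α' t := fun t => h1' fun _ => t
    obtain ⟨t, ht⟩ := α.surjective (β' s)
    by_cases hts : t = s
    · rw [h2, ← ht, hts]
    · have h3 : β' t = β' s := by rw [← h t hts, h2, ht]
      rw [h2', h2'] at h3
      exact absurd (α'.injective h3) hts

end Pool.Agent.H53.FC
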