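import Pool.Agent.H1.SF.P2
import Pool.Agent.H58.SF.Asm

/-!
# Graphs with a loop or with arbitrarily large complete subgraphs: the problem is in P
-/

set_option autoImplicit false

namespace Pool.Agent.H53.FC

open Pool.Agent.H68.BP Pool.Agent.H58.SF

/-- Two templates with the same finite graphs mapping to them have the same problem. -/
theorem csp_congr {A B : Type} {σ : Sig} {𝔸 : Str σ A} {𝔹 : Str σ B}
    (h : ∀ (n : ℕ) (𝕏 : Str σ (Fin n)), (∃ f, IsHom 𝕏 𝔸 f) ↔ ∃ f, IsHom 𝕏 𝔹 f) :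
    CSP 𝔸 = CSP 𝔹 := by
  funext w
  unfold CSP
  rw [decide_eq_decide]
  constructor
  · rintro ⟨n, L, h1, h2, h3⟩
    exact ⟨n, L, h1, h2, (h n _).1 h3⟩
  · rintro ⟨n, L, h1, h2, h3⟩
    exact ⟨n, L, h1, h2, (h n _).2 h3⟩

/-- a loop -/
theorem csp_mem_P_of_loop {D : Type} {E : D → D → Prop} {x : D} (hx : E x x) :
    CSP (graph E) ∈ N68a2faeb.P := by
  have h : CSP (graph E) = CSP Pool.Agent.H1.SF.tri := csp_congr fun n 𝕏 =>
    ⟨fun _ => ⟨fun _ => (), fun _ _ _ => trivial⟩, fun _ => ⟨fun _ => x, fun _ _ _ => hx⟩⟩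
  rw [h]
  exact Pool.Agent.H1.SF.tri_mem_P

/-- large complete graphs -/
theorem csp_mem_P_of_cliques {D : Type} {E : D → D → Prop} (h : ∀ k, HasClique E k) :
    CSP (graph E) ∈ N68a2faeb.P := by
  by_cases hl : ∃ x, E x x
  · obtain ⟨x, hx⟩ := hl
    exact csp_mem_P_of_loop hx
  · have h1 : CSP (graph E) = CSP (graph (fun a b : ℕ => a ≠ b)) := csp_congr fun n 𝕏 => by
      constructor
      · rintro ⟨f, hf⟩
        refine ⟨fun i => (i : ℕ), ?_⟩
        intro l x hx hne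
        have h2 := hf l x hx
        have h3 : x (0 : Fin 2) = x (1 : Fin 2) := Fin.ext hne
        have h4 : E (f (x (0 : Fin 2))) (f (x (1 : Fin 2))) := h2
        rw [h3] at h4
        exact hl ⟨_, h4⟩
      · rintro ⟨f, hf⟩
        obtain ⟨c, hc⟩ := h (Finset.univ.sup f + 1)
        have hlt : ∀ i, f i < Finset.univ.sup f + 1 := fun i =>
          Nat.lt_succ_of_le (Finset.le_sup (Finset.mem_univ i))
        refine ⟨fun i => c ⟨f i, hlt i⟩, ?_⟩
        intro l x hx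
        have h2 : f (x (0 : Fin 2)) ≠ f (x (1 : Fin 2)) := hf l x hx
        exact hc _ _ fun he => h2 (Fin.mk.inj_iff.1 he)
    rw [h1]
    exact Pool.Agent.H1.SF.ne_mem_P

end Pool.Agent.H53.FC
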