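import Pool.Agent.H53.FC.Graph

/-!
# Examples of rigid pairs, and the class of graphs
-/

set_option autoImplicit false

namespace Pool.Agent.H53.FC

open Pool.Agent.H68.BP Pool.Agent.H58.SF Pool.Agent.H53.RG

variable {V S T : Type} {E : V → V → Prop} {R : S → S → Prop} {R' : T → T → Prop}

/-- There is a rigid pair `(S; R)`, `(T; R')` of finite graphs such that `(V; E)` has a homomorphism
to `(T; R')` and `(S; R)` has a homomorphism to each finite graph to which `(V; E)` has a
homomorphism. -/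
def RigidImages (E : V → V → Prop) : Prop :=
  ∃ (S T : Type) (R : S → S → Prop) (R' : T → T → Prop), RigidGraphs R R' ∧
    MapsToFiniteImages R E ∧ ∃ c : V → T, ∀ x y, E x y → R' (c x) (c y)

theorem RigidImages.K3 (hV : Countable V) (hol : Oligo (graph E)) (hs : ∀ x y, E x y → E y x)
    (h : RigidImages E) : PPConstructsK3 (graph E) := by
  obtain ⟨S, T, R, R', hR, hI, hc⟩ := h
  exact rigid_graph_K3 hV hol hs hR hI hc

/-- complete graphs -/
theorem rigidImages_of_complete {c : ℕ} (hc : 3 ≤ c) (hcol : Colorable E c)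
    (h : ∀ (n : ℕ) (Q : Fin n → Fin n → Prop), (∀ a b, Q a b → Q b a) →
      (∃ κ : V → Fin n, ∀ x y, E x y → Q (κ x) (κ y)) → HasClique Q c) : RigidImages E := by
  obtain ⟨κ, hκ⟩ := hcol
  refine ⟨Fin c, Fin c, fun i j => i ≠ j, fun i j => i ≠ j,
    ProjectiveCore.rigidGraphs (projectiveCore_complete hc), ?_, κ, hκ⟩
  intro H _ Q hQ ⟨κ', hκ'⟩
  obtain ⟨n, ⟨e⟩⟩ := Finite.exists_equiv_fin H
  obtain ⟨f, hf⟩ := h n (fun a b => Q (e.symm a) (e.symm b)) (fun a b => hQ _ _)
    ⟨fun x => e (κ' x), fun x y hxy => by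
      rw [Equiv.symm_apply_apply, Equiv.symm_apply_apply]
      exact hκ' x y hxy⟩
  exact ⟨fun i => e.symm (f i), fun i j hij => hf i j hij⟩

/-- The permutation group `G` is age indivisible: for each finite colouring of the points and each
finite set `F` there is `g ∈ G` such that the colour is constant on the intersections of `g F` with
the orbits. -/
def AgeIndivisible (G : Subgroup (Equiv.Perm V)) : Prop :=
  ∀ (k : ℕ) (F : Finset V) (χ : V → Fin k), ∃ g ∈ G, ∀ x ∈ F, ∀ y ∈ F,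
    (∃ γ ∈ G, γ x = y) → χ (g x) = χ (g y)

theorem AgeIndivisible.finite {G : Subgroup (Equiv.Perm V)} (hG : AgeIndivisible G) {κ : Type}
    [Finite κ] (F : Finset V) (χ : V → κ) : ∃ g ∈ G, ∀ x ∈ F, ∀ y ∈ F,
      (∃ γ ∈ G, γ x = y) → χ (g x) = χ (g y) := by
  obtain ⟨k, ⟨e⟩⟩ := Finite.exists_equiv_fin κ
  obtain ⟨g, hg, h⟩ := hG k F (fun x => e (χ x))
  exact ⟨g, hg, fun x hx y hy hxy => e.injective (h x hx y hy hxy)⟩

/-- Orbits of an age indivisible group. -/
theorem mapsToFiniteImages_of_group [Finite S] {G : Subgroup (Equiv.Perm V)}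
    (hG : AgeIndivisible G)
    (hE : ∀ g ∈ G, ∀ x y, E x y → E (g x) (g y)) {O : S → Set V} (hO : OrbitCopy E G R O) :
    MapsToFiniteImages R E := by
  classical
  have := Fintype.ofFinite S
  intro H _ Q _ ⟨κ, hκ⟩
  choose rep hrep using hO.ne
  have h : ∀ p : S × S, ∃ a b, R p.1 p.2 → a ∈ O p.1 ∧ b ∈ O p.2 ∧ E a b := by
    intro p
    by_cases hp : R p.1 p.2
    · obtain ⟨a, ha, b, hb, hab⟩ := hO.adj _ _ hp
      exact ⟨a, b, fun _ => ⟨ha, hb, hab⟩⟩
    · exact ⟨rep p.1, rep p.2, fun h => absurd h hp⟩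
  choose a b hab using h
  obtain ⟨g, hg, hinv⟩ := hG.finite (Finset.univ.image rep ∪ (Finset.univ.image a ∪
    Finset.univ.image b)) κ
  have hr : ∀ t, rep t ∈ Finset.univ.image rep ∪ (Finset.univ.image a ∪ Finset.univ.image b) :=
    fun t => Finset.mem_union_left _ (Finset.mem_image_of_mem _ (Finset.mem_univ _))
  refine ⟨fun t => κ (g (rep t)), fun s t hst => ?_⟩
  obtain ⟨ha, hb, he⟩ := hab (s, t) hst
  have h1 := hinv (rep s) (hr s) (a (s, t)) (Finset.mem_union_right _ (Finset.mem_union_left _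
    (Finset.mem_image_of_mem _ (Finset.mem_univ _)))) (hO.trans s _ (hrep s) _ ha)
  have h2 := hinv (rep t) (hr t) (b (s, t)) (Finset.mem_union_right _ (Finset.mem_union_right _
    (Finset.mem_image_of_mem _ (Finset.mem_univ _)))) (hO.trans t _ (hrep t) _ hb)
  show Q (κ (g (rep s))) (κ (g (rep t)))
  rw [h1, h2]
  exact hκ _ _ (hE g hg _ _ he)

end Pool.Agent.H53.FC
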