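import Pool.Agent.H53.FC.Defs
import Pool.Agent.H53.RG.Inv

/-!
# The tree argument for families of ultrafilters
-/

set_option autoImplicit false

namespace Pool.Agent.H53.FC

open Pool.Agent.H68.BP Pool.Agent.H58.SF Pool.Agent.H53.RG

variable {σ : Sig} {V S T : Type} {Λ : (l : Fin σ.m) → Fin (σ.ar l) → Prop}
  {𝔸 : Str σ V} {𝕊 : Str σ S} {𝕋 : Str σ T}

/-- The vertices which are roots of good trees of depth `k`. -/
def Good (Λ : (l : Fin σ.m) → Fin (σ.ar l) → Prop) (𝕊 : Str σ S) (𝔸 : Str σ V)
    (A : S → Set V) : ℕ → S → Set V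
  | 0, s => A s
  | k + 1, s => {x | x ∈ A s ∧ ∀ (l : Fin σ.m) (j : Fin (σ.ar l)) (r : Fin (σ.ar l) → S),
      Λ l j → 𝕊 l r → r j = s → ∃ a : Fin (σ.ar l) → V, 𝔸 l a ∧ a j = x ∧
        ∀ j', j' ≠ j → a j' ∈ Good Λ 𝕊 𝔸 A k (r j')}

theorem good_sub {A : S → Set V} {k : ℕ} {s : S} {x : V} (h : x ∈ Good Λ 𝕊 𝔸 A k s) :
    x ∈ A s := by
  cases k with
  | zero => exact h
  | succ k => exact h.1

theorem good_mem [Finite S] {p : S → Ultrafilter V} (hp : Family 𝕊 𝔸 p) {A : S → Set V}
    (hA : ∀ s, A s ∈ p s) (k : ℕ) : ∀ s, Good Λ 𝕊 𝔸 A k s ∈ p s := by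
  classical
  induction k with
  | zero => exact hA
  | succ k ih =>
    intro s
    have h1 : ∀ (l : Fin σ.m) (j : Fin (σ.ar l)) (r : Fin (σ.ar l) → S),
        ∀ᶠ x in ((p s : Ultrafilter V) : Filter V), Λ l j → 𝕊 l r → r j = s →
          ∃ a : Fin (σ.ar l) → V, 𝔸 l a ∧ a j = x ∧
            ∀ j', j' ≠ j → a j' ∈ Good Λ 𝕊 𝔸 A k (r j') := by
      intro l j r
      by_cases hr : 𝕊 l r ∧ r j = s
      · obtain ⟨hr, hj⟩ := hr
        by_contra hcon
        have h2 : {x | Λ l j → 𝕊 l r → r j = s → ∃ a : Fin (σ.ar l) → V, 𝔸 l a ∧ a j = x ∧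
            ∀ j', j' ≠ j → a j' ∈ Good Λ 𝕊 𝔸 A k (r j')}ᶜ ∈ p s :=
          Ultrafilter.compl_mem_iff_notMem.2 hcon
        obtain ⟨a, ha, h3⟩ := hp l r hr (fun j' => if j' = j then {x | Λ l j → 𝕊 l r → r j = s →
            ∃ a : Fin (σ.ar l) → V, 𝔸 l a ∧ a j = x ∧
            ∀ j', j' ≠ j → a j' ∈ Good Λ 𝕊 𝔸 A k (r j')}ᶜ else Good Λ 𝕊 𝔸 A k (r j')) (by
          intro j'
          by_cases hjj : j' = j
          · subst hjj
            simp only [if_true]
            have h5 : p (r j') = p s := by rw [hj]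
            rw [h5]
            exact h2
          · simp only [if_neg hjj]
            exact ih (r j'))
        have h4 := h3 j
        simp only [if_true] at h4
        refine h4 fun _ _ _ => ⟨a, ha, rfl, fun j' hj' => ?_⟩
        have h5 := h3 j'
        simp only [if_neg hj'] at h5
        exact h5
      · exact Filter.Eventually.of_forall fun x _ h3 h4 => absurd ⟨h3, h4⟩ hr
    have h2 : ∀ᶠ x in ((p s : Ultrafilter V) : Filter V),
        ∀ (l : Fin σ.m) (j : Fin (σ.ar l)) (r : Fin (σ.ar l) → S), Λ l j → 𝕊 l r → r j = s →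
          ∃ a : Fin (σ.ar l) → V, 𝔸 l a ∧ a j = x ∧
            ∀ j', j' ≠ j → a j' ∈ Good Λ 𝕊 𝔸 A k (r j') := by
      rw [Filter.eventually_all]
      intro l
      rw [Filter.eventually_all]
      intro j
      rw [Filter.eventually_all]
      exact h1 l j
    exact Filter.Eventually.and (hA s) h2

/-- The tree argument. -/
theorem tree [Finite S] {β : S → T} (hβ : ∀ (s : S) (u : T),
    (∀ (l : Fin σ.m) (j : Fin (σ.ar l)), Λ l j → ∀ r : Fin (σ.ar l) → S, 𝕊 l r → r j = s →
      𝕋 l (Function.update (fun k => β (r k)) j u)) → u = β s)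
    {h : (Fin 6 → V) → T} (hh : IsPoly 𝔸 𝕋 h) (i : Fin 6) (A : S → Set V) (k : ℕ) :
    ∀ s x, x ∈ Good Λ 𝕊 𝔸 A k s → ∃ F : Finset (S × V), (∀ q ∈ F, q.2 ∈ A q.1) ∧
      ∀ z : Fin 6 → V, (∀ q ∈ F, h (Function.update z i q.2) = β q.1) →
        ∀ y : Fin 6 → V, (∀ i', i' ≠ i → y i' ∈ Reach Λ 𝔸 (z i') k) →
          h (Function.update y i x) = β s := by
  classical
  induction k with
  | zero =>
    intro s x hx
    refine ⟨{(s, x)}, ?_, ?_⟩
    · intro q hq
      rw [Finset.mem_singleton.1 hq]
      exact hx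
    · intro z hz y hy
      have h1 : Function.update y i x = Function.update z i x := by
        funext i'
        by_cases hi : i' = i
        · subst hi
          rw [Function.update_self, Function.update_self]
        · rw [Function.update_of_ne hi, Function.update_of_ne hi]
          exact hy i' hi
      rw [h1]
      exact hz (s, x) (Finset.mem_singleton_self _)
  | succ k ih =>
    intro s x hx
    have h1 : ∀ (l : Fin σ.m) (j : Fin (σ.ar l)) (r : Fin (σ.ar l) → S),
        ∃ F : Finset (S × V), (∀ q ∈ F, q.2 ∈ A q.1) ∧ (Λ l j → 𝕊 l r → r j = s →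
          ∀ z : Fin 6 → V, (∀ q ∈ F, h (Function.update z i q.2) = β q.1) →
          ∀ y : Fin 6 → V, (∀ i', i' ≠ i → y i' ∈ Reach Λ 𝔸 (z i') (k + 1)) →
            𝕋 l (Function.update (fun k => β (r k)) j (h (Function.update y i x)))) := by
      intro l j r
      by_cases hc : Λ l j ∧ 𝕊 l r ∧ r j = s
      · obtain ⟨hc1, hc2, hc3⟩ := hc
        obtain ⟨a, ha, haj, hag⟩ := hx.2 l j r hc1 hc2 hc3
        have h2 : ∀ j' : Fin (σ.ar l), ∃ F : Finset (S × V), (∀ q ∈ F, q.2 ∈ A q.1) ∧
            (j' ≠ j → ∀ z : Fin 6 → V, (∀ q ∈ F, h (Function.update z i q.2) = β q.1) →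
              ∀ y : Fin 6 → V, (∀ i', i' ≠ i → y i' ∈ Reach Λ 𝔸 (z i') k) →
                h (Function.update y i (a j')) = β (r j')) := by
          intro j'
          by_cases hj' : j' = j
          · exact ⟨∅, by simp, fun h => absurd hj' h⟩
          · obtain ⟨F, hF1, hF2⟩ := ih (r j') (a j') (hag j' hj')
            exact ⟨F, hF1, fun _ => hF2⟩
        choose F hF1 hF2 using h2
        refine ⟨Finset.univ.biUnion F, ?_, ?_⟩
        · intro q hq
          obtain ⟨j', _, hq⟩ := Finset.mem_biUnion.1 hq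
          exact hF1 j' q hq
        · intro _ _ _ z hz y hy
          have h3 : ∀ i' : Fin 6, ∃ b : Fin (σ.ar l) → V, 𝔸 l b ∧
              (i' = i → b = a) ∧ (i' ≠ i → b j = y i' ∧ ∀ j', j' ≠ j →
                b j' ∈ Reach Λ 𝔸 (z i') k) := by
            intro i'
            by_cases hi : i' = i
            · exact ⟨a, ha, fun _ => rfl, fun h => absurd hi h⟩
            · obtain ⟨b, hb, h4, h5⟩ := hy i' hi l j hc1
              exact ⟨b, hb, fun h => absurd h hi, fun _ => ⟨h4, h5⟩⟩
          choose b hb hbi hbn using h3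
          have h4 := hh l b hb
          have h5 : (fun k => h (fun i' => b i' k)) =
              Function.update (fun k => β (r k)) j (h (Function.update y i x)) := by
            funext j'
            by_cases hj' : j' = j
            · subst hj'
              rw [Function.update_self]
              congr 1
              funext i'
              by_cases hi : i' = i
              · subst hi
                rw [Function.update_self, hbi i' rfl, haj]
              · rw [Function.update_of_ne hi]
                exact (hbn i' hi).1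
            · rw [Function.update_of_ne hj']
              rw [← hF2 j' hj' z (fun q hq => hz q (Finset.mem_biUnion.2
                ⟨j', Finset.mem_univ _, hq⟩)) (fun i' => b i' j')
                (fun i' hi => (hbn i' hi).2 j' hj')]
              congr 1
              funext i'
              by_cases hi : i' = i
              · subst hi
                rw [Function.update_self, hbi i' rfl]
              · rw [Function.update_of_ne hi]
          rw [h5] at h4
          exact h4
      · refine ⟨∅, by simp, fun h2 h3 h4 => absurd ⟨h2, h3, h4⟩ hc⟩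
    choose F hF1 hF2 using h1
    have : Fintype S := Fintype.ofFinite S
    refine ⟨Finset.univ.biUnion fun l => Finset.univ.biUnion fun j =>
      Finset.univ.biUnion fun r => F l j r, ?_, ?_⟩
    · intro q hq
      simp only [Finset.mem_biUnion, Finset.mem_univ, true_and] at hq
      obtain ⟨l, j, r, hq⟩ := hq
      exact hF1 l j r q hq
    · intro z hz y hy
      refine hβ s _ fun l j hc1 r hc2 hc3 => hF2 l j r hc1 hc2 hc3 z (fun q hq => hz q ?_) y hy
      simp only [Finset.mem_biUnion, Finset.mem_univ, true_and]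
      exact ⟨l, j, r, hq⟩

/-- There is no Olšák function. -/
theorem no_olsak_core [Nonempty V] (hR : RigidPair Λ 𝕊 𝕋) {p : S → Ultrafilter V}
    (hp : Family 𝕊 𝔸 p)
    {C : Set V} (hC : ∀ s, C ∈ p s) {L : ℕ} (hm : ∀ y ∈ C, ∀ z ∈ C, y ∈ Reach Λ 𝔸 z L)
    {h : (Fin 6 → V) → T} (hh : IsPoly 𝔸 𝕋 h) (ho : Ols h) : False := by
  classical
  have := hR.finS
  have := hR.finT
  choose f hf using fun t : Fin 6 → S => Ev.value (fun i => p (t i)) h
  have hfp : IsPoly 𝕊 𝕋 f := by
    intro l r hr
    obtain ⟨x, hx, h1⟩ := Ev.rel (R := 𝔸 l) (p := fun j i => p (r i j))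
      (P := fun j v => h v = f (fun i => r i j))
      (fun i => hp l (r i) (hr i)) (fun j => hf (fun i => r i j))
    have h2 := hh l (fun i j => x j i) hx
    have h3 : (fun k => h (fun i => x k i)) = fun k => f (fun i => r i k) := funext h1
    rw [← h3]
    exact h2
  obtain ⟨i, β, hβ⟩ := hR.unary f hfp
  have hβh : IsHom 𝕊 𝕋 β := by
    intro l r hr
    have h1 := hfp l (fun _ => r) fun _ => hr
    have h2 : (fun k => f (fun _ : Fin 6 => r k)) = fun k => β (r k) := funext fun k => hβ _
    rw [h2] at h1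
    exact h1
  obtain ⟨s, s', hss⟩ : ∃ s s', β s ≠ β s' := by
    by_contra hcon
    push Not at hcon
    rcases isEmpty_or_nonempty S with hS | ⟨⟨s₀⟩⟩
    · refine hR.nonconst (h (fun _ => Classical.arbitrary V)) ?_
      have h1 : (fun _ => h (fun _ => Classical.arbitrary V)) = β := funext fun s => isEmptyElim s
      rw [h1]
      exact hβh
    · refine hR.nonconst (β s₀) ?_
      have h1 : (fun _ => β s₀) = β := funext fun s => hcon s₀ s
      rw [h1]
      exact hβh
  -- slices
  obtain ⟨A, hA, hsl⟩ := Ev.slice p (p s) 6 i (fun t v => h v = β t ∧ ∀ j, v j ∈ C) (by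
    intro t
    have h1 := hf (Function.update (fun _ => s) i t)
    rw [hβ, Function.update_self] at h1
    have h2 : (fun j => p (Function.update (fun _ => s) i t j)) =
        Function.update (fun _ => p s) i (p t) := by
      funext j
      by_cases hj : j = i
      · subst hj
        rw [Function.update_self, Function.update_self]
      · rw [Function.update_of_ne hj, Function.update_of_ne hj]
    rw [h2] at h1
    refine h1.and (Ev.forall_mem fun j => ?_)
    by_cases hj : j = i
    · subst hj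
      rw [Function.update_self]
      exact hC t
    · rw [Function.update_of_ne hj]
      exact hC s)
  have hA' : ∀ t, A t ∩ C ∈ p t := fun t => Filter.inter_mem (hA t) (hC t)
  obtain ⟨x, hx⟩ := (p s).nonempty_of_mem (good_mem (Λ := Λ) hp hA' L s)
  obtain ⟨y, hy⟩ := (p s').nonempty_of_mem (good_mem (Λ := Λ) hp hA' L s')
  obtain ⟨F, hF, hF'⟩ := tree (hR.frozen β hβh) hh i _ L s x hx
  obtain ⟨F₂, hF₂, hF₂'⟩ := tree (hR.frozen β hβh) hh i _ L s' y hy
  obtain ⟨z, hz⟩ := hsl (insert (s, x) (F ∪ F₂)) (by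
    intro w hw
    rcases Finset.mem_insert.1 hw with rfl | hw
    · exact (good_sub hx).1
    · rcases Finset.mem_union.1 hw with hw | hw
      · exact (hF w hw).1
      · exact (hF₂ w hw).1)
  have hzC : ∀ j, j ≠ i → z j ∈ C := by
    intro j hj
    have h1 := (hz (s, x) (Finset.mem_insert_self _ _)).2 j
    rwa [Function.update_of_ne hj] at h1
  have hxC : x ∈ C := (good_sub hx).2
  have hyC : y ∈ C := (good_sub hy).2
  have hX : ∀ w : Fin 6 → V, (∀ j, w j = x ∨ w j = y) → w i = x → h w = β s := by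
    intro w hw hwi
    have h1 := hF' z (fun q hq => (hz q (Finset.mem_insert_of_mem
      (Finset.mem_union_left _ hq))).1) w (fun j hj => hm _ ?_ _ (hzC j hj))
    · rw [← hwi, Function.update_eq_self] at h1
      exact h1
    · rcases hw j with h2 | h2
      · rw [h2]
        exact hxC
      · rw [h2]
        exact hyC
  have hY : ∀ w : Fin 6 → V, (∀ j, w j = x ∨ w j = y) → w i = y → h w = β s' := by
    intro w hw hwi
    have h1 := hF₂' z (fun q hq => (hz q (Finset.mem_insert_of_mem
      (Finset.mem_union_right _ hq))).1) w (fun j hj => hm _ ?_ _ (hzC j hj))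
    · rw [← hwi, Function.update_eq_self] at h1
      exact h1
    · rcases hw j with h2 | h2
      · rw [h2]
        exact hxC
      · rw [h2]
        exact hyC
  obtain ⟨e1, e2⟩ := ho x y
  have w1 : ∀ j, (![x, x, y, y, y, x] : Fin 6 → V) j = x ∨
      (![x, x, y, y, y, x] : Fin 6 → V) j = y := by
    intro j
    fin_cases j <;> simp
  have w2 : ∀ j, (![x, y, x, y, x, y] : Fin 6 → V) j = x ∨
      (![x, y, x, y, x, y] : Fin 6 → V) j = y := by
    intro j
    fin_cases j <;> simp
  have w3 : ∀ j, (![y, x, x, x, y, y] : Fin 6 → V) j = x ∨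
      (![y, x, x, x, y, y] : Fin 6 → V) j = y := by
    intro j
    fin_cases j <;> simp
  apply hss
  fin_cases i
  · rw [← hX _ w2 rfl, ← hY _ w3 rfl, e2]
  · rw [← hX _ w1 rfl, ← hY _ w2 rfl, e1]
  · rw [← hX _ w2 rfl, ← hY _ w1 rfl, e1]
  · rw [← hX _ w3 rfl, ← hY _ w2 rfl, e2]
  · rw [← hX _ w2 rfl, ← hY _ w1 rfl, e1]
  · rw [← hX _ w1 rfl, ← hY _ w2 rfl, e1]

end Pool.Agent.H53.FC
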