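import Pool.Agent.H58.SF.Defs
import Pool.Agent.H53.RG.Defs

/-!
# Structures with the same finite homomorphic images as a rigid finite structure
-/

set_option autoImplicit false

namespace Pool.Agent.H53.FC

open Pool.Agent.H68.BP Pool.Agent.H58.SF Pool.Agent.H53.RG

variable {σ : Sig} {V S T : Type}

/-- `𝕊` has a homomorphism to each finite structure to which `𝔸` has a homomorphism. -/
def MapsToImages (𝕊 : Str σ S) (𝔸 : Str σ V) : Prop :=
  ∀ (H : Type) [Finite H] (ℍ : Str σ H), (∃ c, IsHom 𝔸 ℍ c) → ∃ φ, IsHom 𝕊 ℍ φ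

/-- The pair `(𝕊, 𝕋)` of finite structures is rigid with respect to the set `Λ` of positions in
the relations: each homomorphism from the sixth power of `𝕊` to `𝕋` depends on one coordinate
only, no homomorphism from `𝕊` to `𝕋` is constant, and for each homomorphism `β` from `𝕊` to `𝕋`
and each `s` the only `u` which can take the place of `β s` at each position of `Λ` is `β s`. -/
structure RigidPair (Λ : (l : Fin σ.m) → Fin (σ.ar l) → Prop) (𝕊 : Str σ S) (𝕋 : Str σ T) :
    Prop where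
  finS : Finite S
  finT : Finite T
  unary : ∀ f : (Fin 6 → S) → T, IsPoly 𝕊 𝕋 f → ∃ (i : Fin 6) (β : S → T), ∀ x, f x = β (x i)
  nonconst : ∀ u : T, ¬ IsHom 𝕊 𝕋 (fun _ => u)
  frozen : ∀ β : S → T, IsHom 𝕊 𝕋 β → ∀ (s : S) (u : T),
    (∀ (l : Fin σ.m) (j : Fin (σ.ar l)), Λ l j → ∀ r : Fin (σ.ar l) → S, 𝕊 l r → r j = s →
      𝕋 l (Function.update (fun k => β (r k)) j u)) → u = β s

/-- The vertices from which all branching walks of length `k`, which use the positions in `Λ`,
can be led to `z`. -/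
def Reach (Λ : (l : Fin σ.m) → Fin (σ.ar l) → Prop) (𝔸 : Str σ V) (z : V) : ℕ → Set V
  | 0 => {z}
  | k + 1 => {y | ∀ (l : Fin σ.m) (j : Fin (σ.ar l)), Λ l j → ∃ a : Fin (σ.ar l) → V,
      𝔸 l a ∧ a j = y ∧ ∀ j', j' ≠ j → a j' ∈ Reach Λ 𝔸 z k}

/-- A family of ultrafilters on the structure `𝔸` which is a homomorphic image of `𝕊`. -/
def Family (𝕊 : Str σ S) (𝔸 : Str σ V) (p : S → Ultrafilter V) : Prop :=
  ∀ (l : Fin σ.m) (r : Fin (σ.ar l) → S), 𝕊 l r → ∀ A : Fin (σ.ar l) → Set V,
    (∀ j, A j ∈ p (r j)) → ∃ a, 𝔸 l a ∧ ∀ j, a j ∈ A j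

theorem exists_family [Nonempty V] {𝕊 : Str σ S} {𝔸 : Str σ V} (h : MapsToImages 𝕊 𝔸) :
    ∃ p, Family 𝕊 𝔸 p := by
  classical
  let χ : (𝒜 : Finset (Set V)) → V → (𝒜 → Prop) := fun 𝒜 v A => v ∈ (A : Set V)
  have hφ : ∀ 𝒜 : Finset (Set V), ∃ φ : S → (𝒜 → Prop),
      IsHom 𝕊 (fun l b => ∃ a, 𝔸 l a ∧ ∀ j, χ 𝒜 (a j) = b j : Str σ (𝒜 → Prop)) φ := by
    intro 𝒜
    exact h _ _ ⟨χ 𝒜, fun l a ha => ⟨a, ha, fun j => rfl⟩⟩
  choose φ hφ using hφ
  let v : S → Finset (Set V) → V := fun s 𝒜 =>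
    if h : ∃ x, χ 𝒜 x = φ 𝒜 s then h.choose else Classical.arbitrary V
  have hv : ∀ s 𝒜, (∃ x, χ 𝒜 x = φ 𝒜 s) → χ 𝒜 (v s 𝒜) = φ 𝒜 s := by
    intro s 𝒜 h
    simp only [v, dif_pos h]
    exact h.choose_spec
  refine ⟨fun s => (cone (Set V)).map (v s), ?_⟩
  intro l r hr A hA
  have h1 : ∀ᶠ 𝒜 in ((cone (Set V) : Ultrafilter (Finset (Set V))) : Filter (Finset (Set V))),
      ∀ j, v (r j) 𝒜 ∈ A j := by
    rw [Filter.eventually_all]
    exact fun j => hA j
  obtain ⟨𝒜, h1, h2⟩ := (h1.and (cone_mem (Finset.univ.image A))).exists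
  obtain ⟨a, ha, e⟩ := hφ 𝒜 l r hr
  refine ⟨a, ha, fun j => ?_⟩
  have h3 := hv (r j) 𝒜 ⟨a j, e j⟩
  have h4 := congrFun (h3.trans (e j).symm)
    ⟨A j, h2 (Finset.mem_image_of_mem _ (Finset.mem_univ j))⟩
  exact h4.mp (h1 j)

theorem Family.map {𝕊 : Str σ S} {𝔸 : Str σ V} {p : S → Ultrafilter V} (hp : Family 𝕊 𝔸 p)
    {r : V → V} (hr : IsHom 𝔸 𝔸 r) : Family 𝕊 𝔸 (fun s => (p s).map r) := by
  intro l t ht A hA
  obtain ⟨a, ha, h⟩ := hp l t ht (fun j => r ⁻¹' A j) hA
  exact ⟨fun j => r (a j), hr l a ha, h⟩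

/-! ### Iterated limits -/

/-- The property `P` holds for almost all tuples with respect to the iterated limit. -/
def Ev : (n : ℕ) → (Fin n → Ultrafilter V) → ((Fin n → V) → Prop) → Prop
  | 0, _, P => P (fun i => i.elim0)
  | n + 1, p, P => ∀ᶠ x in ((p 0 : Ultrafilter V) : Filter V),
      Ev n (fun i => p i.succ) (fun v => P (Fin.cons x v))

theorem Ev.mono {n : ℕ} {p : Fin n → Ultrafilter V} {P Q : (Fin n → V) → Prop}
    (h : Ev n p P) (hPQ : ∀ v, P v → Q v) : Ev n p Q := by
  induction n with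
  | zero => exact hPQ _ h
  | succ n ih => exact Filter.Eventually.mono h fun x hx => ih hx fun v => hPQ _

theorem Ev.all {ι : Type} [Finite ι] {n : ℕ} {p : Fin n → Ultrafilter V}
    {P : ι → (Fin n → V) → Prop} (h : ∀ i, Ev n p (P i)) : Ev n p (fun v => ∀ i, P i v) := by
  induction n with
  | zero => exact h
  | succ n ih =>
    have h' : ∀ i, ∀ᶠ x in ((p 0 : Ultrafilter V) : Filter V),
      Ev n (fun i => p i.succ) (fun v => P i (Fin.cons x v)) := h
    rw [← Filter.eventually_all] at h'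
    exact h'.mono fun x hx => ih hx

theorem Ev.and {n : ℕ} {p : Fin n → Ultrafilter V} {P Q : (Fin n → V) → Prop}
    (h : Ev n p P) (h' : Ev n p Q) : Ev n p (fun v => P v ∧ Q v) := by
  have h1 : Ev n p (fun v => ∀ b : Bool, if b then P v else Q v) := by
    refine Ev.all fun b => ?_
    cases b
    · exact h'.mono fun v hv => by simpa using hv
    · exact h.mono fun v hv => by simpa using hv
  exact h1.mono fun v hv => ⟨by simpa using hv true, by simpa using hv false⟩

theorem Ev.exists {n : ℕ} {p : Fin n → Ultrafilter V} {P : (Fin n → V) → Prop}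
    (h : Ev n p P) : ∃ v, P v := by
  induction n with
  | zero => exact ⟨_, h⟩
  | succ n ih =>
    obtain ⟨x, hx⟩ := Filter.Eventually.exists h
    obtain ⟨v, hv⟩ := ih hx
    exact ⟨_, hv⟩

theorem Ev.value [Finite T] {n : ℕ} (p : Fin n → Ultrafilter V) (f : (Fin n → V) → T) :
    ∃ t, Ev n p (fun v => f v = t) := by
  induction n with
  | zero => exact ⟨_, rfl⟩
  | succ n ih =>
    choose t ht using fun x => ih (fun i => p i.succ) (fun v => f (Fin.cons x v))
    obtain ⟨t', ht'⟩ := exists_lim (p 0) t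
    refine ⟨t', Filter.Eventually.mono ht' fun x hx => ?_⟩
    rw [← hx]
    exact ht x

theorem Ev.forall_mem {n : ℕ} {p : Fin n → Ultrafilter V} {C : Set V} (h : ∀ i, C ∈ p i) :
    Ev n p (fun v => ∀ i, v i ∈ C) := by
  induction n with
  | zero => exact fun i => i.elim0
  | succ n ih =>
    refine Filter.Eventually.mono (h 0) fun x hx => (ih fun i => h i.succ).mono fun v hv => ?_
    intro i
    refine Fin.cases ?_ (fun j => ?_) i
    · rw [Fin.cons_zero]
      exact hx
    · rw [Fin.cons_succ]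
      exact hv j

/-- Tuples of the relation `R` with prescribed properties. -/
theorem Ev.rel {m : ℕ} {R : (Fin m → V) → Prop} : ∀ {n : ℕ} {p : Fin m → Fin n → Ultrafilter V}
    (_ : ∀ i, ∀ A : Fin m → Set V, (∀ j, A j ∈ p j i) → ∃ a, R a ∧ ∀ j, a j ∈ A j)
    {P : Fin m → (Fin n → V) → Prop} (_ : ∀ j, Ev n (p j) (P j)),
    ∃ x : Fin m → Fin n → V, (∀ i, R (fun j => x j i)) ∧ ∀ j, P j (x j) := by
  intro n
  induction n with
  | zero => exact fun {p} _ {P} h => ⟨fun _ i => i.elim0, fun i => i.elim0, h⟩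
  | succ n ih =>
    intro p hp P h
    obtain ⟨a, ha, h1⟩ := hp 0 (fun j => {x | Ev n (fun i => p j i.succ)
      (fun v => P j (Fin.cons x v))}) h
    obtain ⟨x, hx, h2⟩ := ih (p := fun j i => p j i.succ) (fun i => hp i.succ)
      (P := fun j v => P j (Fin.cons (a j) v)) h1
    refine ⟨fun j => Fin.cons (a j) (x j), fun i => ?_, h2⟩
    refine Fin.cases ?_ (fun k => ?_) i
    · simpa using ha
    · simpa using hx k

/-- Slices. -/
theorem Ev.slice {ι : Type} [Finite ι] (q : ι → Ultrafilter V) (q₀ : Ultrafilter V) :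
    ∀ (n : ℕ) (i : Fin n) (P : ι → (Fin n → V) → Prop),
      (∀ s, Ev n (Function.update (fun _ => q₀) i (q s)) (P s)) →
      ∃ A : ι → Set V, (∀ s, A s ∈ q s) ∧ ∀ F : Finset (ι × V), (∀ w ∈ F, w.2 ∈ A w.1) →
        ∃ z : Fin n → V, ∀ w ∈ F, P w.1 (Function.update z i w.2) := by
  intro n
  induction n with
  | zero => exact fun i => i.elim0
  | succ n ih =>
    intro i
    refine Fin.cases ?_ (fun j => ?_) i
    · intro P hP
      refine ⟨fun s => {x | Ev n (fun _ => q₀) (fun v => P s (Fin.cons x v))}, fun s => ?_, ?_⟩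
      · have h1 := hP s
        have h2 : (fun i : Fin n => Function.update (fun _ => q₀) (0 : Fin (n + 1)) (q s) i.succ) =
            fun _ => q₀ := by
          funext i
          rw [Function.update_of_ne (Fin.succ_ne_zero i)]
        simp only [Ev, h2, Function.update_self] at h1
        exact h1
      · intro F hF
        have h1 : Ev n (fun _ => q₀) (fun v => ∀ w : F, P w.1.1 (Fin.cons w.1.2 v)) :=
          Ev.all fun w => hF w.1 w.2
        obtain ⟨v, hv⟩ := h1.exists
        obtain ⟨x₀⟩ : Nonempty V := Filter.nonempty_of_neBot (q₀ : Filter V)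
        refine ⟨Fin.cons x₀ v, fun w hw => ?_⟩
        rw [Fin.update_cons_zero]
        exact hv ⟨w, hw⟩
    · intro P hP
      have h1 : ∀ᶠ x in (q₀ : Filter V), ∀ s, Ev n (Function.update (fun _ => q₀) j (q s))
          (fun v => P s (Fin.cons x v)) := by
        rw [Filter.eventually_all]
        intro s
        have h2 := hP s
        have h3 : (fun i : Fin n => Function.update (fun _ => q₀) j.succ (q s) i.succ) =
            Function.update (fun _ => q₀) j (q s) := by
          funext i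
          by_cases hij : i = j
          · subst hij
            rw [Function.update_self, Function.update_self]
          · rw [Function.update_of_ne hij,
              Function.update_of_ne (fun h => hij (Fin.succ_injective _ h))]
        simp only [Ev, h3, Function.update_of_ne (Fin.succ_ne_zero j).symm] at h2
        exact h2
      obtain ⟨x, hx⟩ := h1.exists
      obtain ⟨A, hA, h4⟩ := ih j (fun s v => P s (Fin.cons x v)) hx
      refine ⟨A, hA, fun F hF => ?_⟩
      obtain ⟨z, hz⟩ := h4 F hF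
      refine ⟨Fin.cons x z, fun w hw => ?_⟩
      rw [← Fin.cons_update]
      exact hz w hw

end Pool.Agent.H53.FC
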