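import Pool.Agent.H6.FC.Lem

namespace Pool.Agent.H53.FC

open FI AMc AMt

section

variable {S ι : Type} [Group S]

/-- the elements of `D` which are trivial at the places `< m` -/
def Gm (D : Subgroup (ι → S)) (p : ι → ℕ) (m : ℕ) : Subgroup (ι → S) where
  carrier := {d | d ∈ D ∧ ∀ j, p j < m → d j = 1}
  one_mem' := ⟨D.one_mem, fun _ _ => rfl⟩
  mul_mem' := by
    rintro a b ⟨ha, ha'⟩ ⟨hb, hb'⟩
    refine ⟨D.mul_mem ha hb, fun j hj => ?_⟩
    rw [Pi.mul_apply, ha' j hj, hb' j hj, one_mul]
  inv_mem' := by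
    rintro a ⟨ha, ha'⟩
    refine ⟨D.inv_mem ha, fun j hj => ?_⟩
    rw [Pi.inv_apply, ha' j hj, inv_one]

/-- the elements of `D` which are trivial at the places `< m` other than `i` -/
def Am (D : Subgroup (ι → S)) (p : ι → ℕ) (i : ι) (m : ℕ) : Subgroup (ι → S) where
  carrier := {d | d ∈ D ∧ ∀ j, p j < m → j ≠ i → d j = 1}
  one_mem' := ⟨D.one_mem, fun _ _ _ => rfl⟩
  mul_mem' := by
    rintro a b ⟨ha, ha'⟩ ⟨hb, hb'⟩
    refine ⟨D.mul_mem ha hb, fun j hj hji => ?_⟩
    rw [Pi.mul_apply, ha' j hj hji, hb' j hj hji, one_mul]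
  inv_mem' := by
    rintro a ⟨ha, ha'⟩
    refine ⟨D.inv_mem ha, fun j hj hji => ?_⟩
    rw [Pi.inv_apply, ha' j hj hji, inv_one]

/-- the graded piece -/
def gr (D : Subgroup (ι → S)) (p : ι → ℕ) (j : ι) : Subgroup S :=
  (Gm D p (p j)).map (Pi.evalMonoidHom (fun _ : ι => S) j)

theorem card_step [Finite S] [Finite ι] (D : Subgroup (ι → S)) (p : ι → ℕ)
    (hp : Function.Injective p) (j : ι) :
    Nat.card (Gm D p (p j)) = Nat.card (gr D p j) * Nat.card (Gm D p (p j + 1)) := by
  set f : Gm D p (p j) →* S := (Pi.evalMonoidHom (fun _ : ι => S) j).comp (Gm D p (p j)).subtype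
    with hf
  have hr : f.range = gr D p j := by
    rw [hf, MonoidHom.range_comp, Subgroup.range_subtype]
    rfl
  have hle : Gm D p (p j + 1) ≤ Gm D p (p j) := by
    rintro d ⟨h1, h2⟩
    exact ⟨h1, fun l hl => h2 l (by omega)⟩
  have hk : f.ker = (Gm D p (p j + 1)).subgroupOf (Gm D p (p j)) := by
    ext ⟨d, hd⟩
    rw [MonoidHom.mem_ker, Subgroup.mem_subgroupOf]
    constructor
    · intro h
      refine ⟨hd.1, fun l hl => ?_⟩
      rcases Nat.lt_succ_iff_lt_or_eq.1 hl with h1 | h1
      · exact hd.2 l h1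
      · rw [hp h1]; exact h
    · intro h
      exact h.2 j (Nat.lt_succ_self _)
  have h1 := f.ker.card_mul_index
  rw [Subgroup.index_ker, hr, hk, Nat.card_congr (Subgroup.subgroupOfEquivOfLe hle).toEquiv] at h1
  rw [← h1, mul_comm]

theorem index_eq [Finite S] [Fintype ι] (D : Subgroup (ι → S)) (n : ℕ) (e : ι ≃ Fin n) :
    D.index = ∏ j, (gr D (fun i => (e i : ℕ)) j).index := by
  classical
  set p : ι → ℕ := fun i => (e i : ℕ) with hpd
  have hp : Function.Injective p := fun a b h => e.injective (Fin.ext h)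
  have hn : ∀ m, m ≤ n → Nat.card (Gm D p 0) =
      (∏ l ∈ Finset.range m, if h : l < n then Nat.card (gr D p (e.symm ⟨l, h⟩)) else 1) *
        Nat.card (Gm D p m) := by
    intro m
    induction m with
    | zero => intro _; simp
    | succ m ih =>
      intro hm
      rw [ih (by omega), Finset.prod_range_succ, dif_pos (show m < n by omega)]
      have h1 := card_step D p hp (e.symm ⟨m, by omega⟩)
      have h2 : p (e.symm ⟨m, by omega⟩) = m := by rw [hpd]; simp
      rw [h2] at h1
      rw [h1, mul_assoc]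
  have h0 : Gm D p 0 = D := by
    ext d
    exact ⟨fun h => h.1, fun h => ⟨h, fun j hj => absurd hj (Nat.not_lt_zero _)⟩⟩
  have hlast : Nat.card (Gm D p n) = 1 := by
    have : Gm D p n = ⊥ := by
      rw [eq_bot_iff]
      rintro d ⟨_, h2⟩
      rw [Subgroup.mem_bot]
      funext j
      exact h2 j (e j).2
    rw [this]
    simp
  have hc := hn n le_rfl
  rw [h0, hlast, mul_one, Finset.prod_range] at hc
  have hc2 : Nat.card D = ∏ j, Nat.card (gr D p j) := by
    rw [hc, ← e.symm.prod_comp (fun j => Nat.card (gr D p j))]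
    refine Finset.prod_congr rfl fun l _ => ?_
    rw [dif_pos l.2]
  have h3 : Nat.card D * D.index = Nat.card D * ∏ j, (gr D p j).index := by
    rw [D.card_mul_index, hc2, ← Finset.prod_mul_distrib, Nat.card_pi]
    refine Finset.prod_congr rfl fun j _ => ?_
    rw [(gr D p j).card_mul_index]
  exact Nat.eq_of_mul_eq_mul_left Nat.card_pos h3

/-- the alternative for the links of `i` -/
theorem link [Finite S] [Finite ι] (hS : IsSimpleGroup S) (D : Subgroup (ι → S)) (n : ℕ)
    (e : ι ≃ Fin n) (i : ι) (hi : gr D (fun i => (e i : ℕ)) i = ⊤) :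
    ∀ m, (e i : ℕ) < m → m ≤ n →
    (∃ j, gr D (fun i => (e i : ℕ)) j = ⊥ ∧
      ∀ x : S, ∃ d ∈ D, (∀ l, (e l : ℕ) < (e j : ℕ) → l ≠ i → d l = 1) ∧ d j = x) ∨
    (∀ s : S, ∃ d ∈ D, (∀ l, (e l : ℕ) < m → l ≠ i → d l = 1) ∧ d i = s) := by
  set p : ι → ℕ := fun i => (e i : ℕ) with hpd
  have hp : Function.Injective p := fun a b h => e.injective (Fin.ext h)
  intro m hm
  induction m, hm using Nat.le_induction with
  | base =>
    intro _
    right
    intro s
    have : s ∈ gr D p i := by rw [hi]; exact Subgroup.mem_top _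
    obtain ⟨d, ⟨hd1, hd2⟩, hd3⟩ := this
    refine ⟨d, hd1, fun l hl hli => hd2 l ?_, hd3⟩
    rcases Nat.lt_succ_iff_lt_or_eq.1 hl with h1 | h1
    · exact h1
    · exact absurd (hp h1) hli
  | succ m hm ih =>
    intro hmn
    rcases ih (by omega) with h | h
    · left; exact h
    set j : ι := e.symm ⟨m, by omega⟩ with hj
    have hpj : p j = m := by rw [hpd, hj]; simp
    have hij : j ≠ i := by
      rintro h'
      have : p i < m := hm
      rw [← h', hpj] at this
      exact lt_irrefl _ this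
    have hlt : ∀ l, p l < m + 1 → p l < m ∨ l = j := by
      intro l hl
      rcases Nat.lt_succ_iff_lt_or_eq.1 hl with h1 | h1
      · left; exact h1
      · right; exact hp (h1.trans hpj.symm)
    -- the subgroup `K`
    set K : Subgroup S := (Am D p i (m + 1)).map (Pi.evalMonoidHom (fun _ : ι => S) i) with hK
    have hKn : K.Normal := by
      refine ⟨?_⟩
      rintro s ⟨d, ⟨hd1, hd2⟩, rfl⟩ t
      obtain ⟨c, hc1, hc2, hc3⟩ := h t
      refine ⟨c * d * c⁻¹, ⟨D.mul_mem (D.mul_mem hc1 hd1) (D.inv_mem hc1), ?_⟩, ?_⟩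
      · intro l hl hli
        rw [Pi.mul_apply, Pi.mul_apply, Pi.inv_apply, hd2 l hl hli, mul_one, mul_inv_cancel]
      · show c i * d i * (c i)⁻¹ = t * d i * t⁻¹
        rw [hc3]
    rcases hKn.eq_bot_or_eq_top with hb | ht
    · left
      refine ⟨j, ?_⟩
      set A := Am D p i m with hA
      set f1 : A →* S := (Pi.evalMonoidHom (fun _ : ι => S) i).comp A.subtype with hf1
      set f2 : A →* S := (Pi.evalMonoidHom (fun _ : ι => S) j).comp A.subtype with hf2
      have hf1s : Function.Surjective f1 := by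
        intro s
        obtain ⟨d, hd1, hd2, hd3⟩ := h s
        exact ⟨⟨d, hd1, hd2⟩, hd3⟩
      have hker : f2.ker ≤ f1.ker := by
        rintro ⟨d, hd⟩ hd2
        rw [MonoidHom.mem_ker] at hd2 ⊢
        have : d i ∈ K := by
          refine ⟨d, ⟨hd.1, fun l hl hli => ?_⟩, rfl⟩
          rcases hlt l hl with h1 | h1
          · exact hd.2 l h1 hli
          · rw [h1]; exact hd2
        rw [hb, Subgroup.mem_bot] at this
        exact this
      have hi1 : f1.ker.index = Nat.card S := by
        rw [Subgroup.index_ker, MonoidHom.range_eq_top.2 hf1s, Subgroup.card_top]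
      have hi2 : f2.ker.index = Nat.card f2.range := Subgroup.index_ker _
      have hle : Nat.card f2.range ≤ Nat.card S := Subgroup.card_le_card_group _
      have hrel := Subgroup.relIndex_mul_index hker
      rw [hi1, hi2] at hrel
      have hpos : 0 < Nat.card S := Nat.card_pos
      have hrel1 : f2.ker.relIndex f1.ker = 1 := by
        have h0 : f2.ker.relIndex f1.ker ≠ 0 := by
          intro h0
          rw [h0, zero_mul] at hrel
          exact absurd hrel (Nat.card_pos (α := f2.range)).ne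
        rcases Nat.lt_or_ge 1 (f2.ker.relIndex f1.ker) with h2 | h2
        · exfalso
          have : 2 * Nat.card S ≤ Nat.card S := by
            calc 2 * Nat.card S ≤ f2.ker.relIndex f1.ker * Nat.card S :=
                  Nat.mul_le_mul_right _ h2
              _ = Nat.card f2.range := hrel
              _ ≤ Nat.card S := hle
          omega
        · omega
      have hker' : f1.ker ≤ f2.ker := Subgroup.relIndex_eq_one.1 hrel1
      rw [hrel1, one_mul] at hrel
      have hf2s : f2.range = ⊤ := Subgroup.eq_top_of_card_eq _ hrel.symm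
      refine ⟨?_, ?_⟩
      · rw [eq_bot_iff]
        rintro x ⟨d, ⟨hd1, hd2⟩, rfl⟩
        rw [hpj] at hd2
        have hdA : d ∈ A := ⟨hd1, fun l hl _ => hd2 l hl⟩
        have : (⟨d, hdA⟩ : A) ∈ f1.ker := by
          rw [MonoidHom.mem_ker]
          exact hd2 i hm
        have := hker' this
        rw [MonoidHom.mem_ker] at this
        rw [Subgroup.mem_bot]
        exact this
      · intro x
        have : x ∈ f2.range := by rw [hf2s]; exact Subgroup.mem_top _
        obtain ⟨⟨d, hd⟩, hdx⟩ := this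
        refine ⟨d, hd.1, fun l hl hli => hd.2 l ?_ hli, hdx⟩
        have : p l < p j := hl
        rwa [hpj] at this
    · right
      intro s
      have : s ∈ K := by rw [ht]; exact Subgroup.mem_top _
      obtain ⟨d, ⟨hd1, hd2⟩, hd3⟩ := this
      exact ⟨d, hd1, hd2, hd3⟩

end

theorem pf_IDX : T_IDX := by
  intro S _ _ hS g hg hidx hsq ι _ _ D
  obtain ⟨hsim, a0, b0, hab⟩ := hS
  obtain ⟨n, ⟨e⟩⟩ : ∃ n, Nonempty (ι ≃ Fin n) := ⟨_, ⟨Fintype.equivFin ι⟩⟩
  set p : ι → ℕ := fun i => (e i : ℕ) with hpd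
  classical
  have hnt : Nontrivial S := hsim.toNontrivial
  have htb : (⊤ : Subgroup S) ≠ ⊥ := top_ne_bot
  -- the bad places with full graded piece
  have hP : ∀ i : {i : ι // (¬ ∀ s : S, Pi.mulSingle i s ∈ D) ∧ gr D p i = ⊤},
      ∃ j : {j : ι // gr D p j = ⊥},
      ∀ x : S, ∃ d ∈ D, (∀ l, (e l : ℕ) < (e j : ℕ) → l ≠ i → d l = 1) ∧ d j = x := by
    rintro ⟨i, hb, hi⟩
    rcases link hsim D n e i hi n (e i).2 le_rfl with h | h
    · obtain ⟨j, hj, hj'⟩ := h
      exact ⟨⟨j, hj⟩, hj'⟩
    · exfalso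
      apply hb
      intro s
      obtain ⟨d, hd1, hd2, hd3⟩ := h s
      have : Pi.mulSingle i s = d := by
        funext l
        by_cases hl : l = i
        · subst hl; rw [Pi.mulSingle_eq_same, hd3]
        · rw [Pi.mulSingle_eq_of_ne hl, hd2 l (e l).2 hl]
      rw [this]
      exact hd1
  choose f hf using hP
  have hfi : Function.Injective f := by
    intro i i' hii
    by_contra hne
    have hne' : (i : ι) ≠ i' := fun h => hne (Subtype.ext h)
    apply hab
    obtain ⟨d, hd, hd1, hd2⟩ := hf i a0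
    obtain ⟨d', hd', hd1', hd2'⟩ := hf i' b0
    rw [← hii] at hd1' hd2'
    have hmem : d * d' * d⁻¹ * d'⁻¹ ∈ Gm D p (p (f i)) := by
      refine ⟨D.mul_mem (D.mul_mem (D.mul_mem hd hd') (D.inv_mem hd)) (D.inv_mem hd'), ?_⟩
      intro l hl
      simp only [Pi.mul_apply, Pi.inv_apply]
      by_cases hl' : l = i
      · rw [hd1' l hl (by rw [hl']; exact hne')]
        group
      · rw [hd1 l hl hl']
        group
    have h1 : (d * d' * d⁻¹ * d'⁻¹) (f i) ∈ gr D p (f i) := ⟨_, hmem, rfl⟩
    rw [(f i).2, Subgroup.mem_bot] at h1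
    simp only [Pi.mul_apply, Pi.inv_apply, hd2, hd2'] at h1
    have h2 : a0 * b0 * a0⁻¹ = b0 := by
      have := mul_eq_one_iff_eq_inv.1 h1
      rwa [inv_inv] at this
    exact mul_inv_eq_iff_eq_mul.1 h2
  -- counting
  have hcard : Nat.card {i : ι // ¬ ∀ s : S, Pi.mulSingle i s ∈ D} ≤
      ∑ j, ((if gr D p j = ⊤ then 0 else 1) + (if gr D p j = ⊥ then 1 else 0)) := by
    rw [Nat.card_eq_fintype_card, Fintype.card_subtype]
    have h1 := Finset.card_filter_add_card_filter_not
      (s := Finset.univ.filter fun i : ι => ¬ ∀ s : S, Pi.mulSingle i s ∈ D)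
      (p := fun i => gr D p i = ⊤)
    rw [← h1, Finset.filter_filter, Finset.filter_filter]
    have h2 : (Finset.univ.filter fun i : ι => (¬ ∀ s : S, Pi.mulSingle i s ∈ D) ∧
        gr D p i = ⊤).card ≤ (Finset.univ.filter fun j : ι => gr D p j = ⊥).card := by
      rw [← Fintype.card_subtype, ← Fintype.card_subtype]
      exact Fintype.card_le_of_injective f hfi
    have h3 : (Finset.univ.filter fun i : ι => (¬ ∀ s : S, Pi.mulSingle i s ∈ D) ∧
        ¬ gr D p i = ⊤).card ≤ (Finset.univ.filter fun j : ι => ¬ gr D p j = ⊤).card := by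
      apply Finset.card_le_card
      intro i hi
      rw [Finset.mem_filter] at hi ⊢
      exact ⟨hi.1, hi.2.2⟩
    have h4 : ∑ j, ((if gr D p j = ⊤ then 0 else 1) + (if gr D p j = ⊥ then 1 else 0)) =
        (Finset.univ.filter fun j : ι => ¬ gr D p j = ⊤).card +
          (Finset.univ.filter fun j : ι => gr D p j = ⊥).card := by
      rw [Finset.sum_add_distrib, Finset.card_filter, Finset.card_filter]
      congr 1
      refine Finset.sum_congr rfl fun j _ => ?_
      by_cases h : gr D p j = ⊤ <;> simp [h]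
    rw [h4]
    omega
  calc g ^ Nat.card {i : ι // ¬ ∀ s : S, Pi.mulSingle i s ∈ D}
      ≤ g ^ ∑ j, ((if gr D p j = ⊤ then 0 else 1) + (if gr D p j = ⊥ then 1 else 0)) :=
        pow_le_pow_right₀ hg hcard
    _ = ∏ j, g ^ ((if gr D p j = ⊤ then 0 else 1) + (if gr D p j = ⊥ then 1 else 0)) :=
        (Finset.prod_pow_eq_pow_sum _ _ _).symm
    _ ≤ ∏ j, ((gr D p j).index : ℝ) := by
        refine Finset.prod_le_prod (fun j _ => by positivity) fun j _ => ?_
        by_cases h1 : gr D p j = ⊤
        · rw [h1, if_pos rfl, if_neg htb]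
          simp
        · by_cases h2 : gr D p j = ⊥
          · rw [h2, if_neg htb.symm, if_pos rfl]
            rw [Subgroup.index_bot]
            exact hsq
          · rw [if_neg h1, if_neg h2]
            simpa using hidx _ h1
    _ = D.index := by
        rw [index_eq D n e]
        push_cast
        rfl

end Pool.Agent.H53.FC
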