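import Pool.Agent.H6.FC.Lem
import Pool.Agent.H6.FI.Lib

open scoped Classical ComplexConjugate

namespace Pool.Agent.H53.FC

open FI AMc AMt

theorem cj_cj_inv {Γ : Type} [Group Γ] (u : Γ) (x : Γ → ℂ) : cj u⁻¹ (cj u x) = x := by
  funext g
  simp only [cj]
  congr 1
  group

theorem mem_stab {Γ : Type} [Group Γ] (u : Γ) (x : Γ → ℂ) :
    u ∈ stab (⊤ : Subgroup Γ) x ↔ cj u x = x :=
  ⟨fun h => h.2, fun h => ⟨Subgroup.mem_top _, h⟩⟩

/-- the swap of two elements is a bijection of a set containing both -/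
theorem bijOn_swap {α : Type} {X : Set α} {x y : α} (hx : x ∈ X) (hy : y ∈ X) :
    Set.BijOn (Equiv.swap x y) X X := by
  have hm : Set.MapsTo (Equiv.swap x y) X X := by
    intro z hz
    by_cases h1 : z = x
    · rw [h1, Equiv.swap_apply_left]; exact hy
    · by_cases h2 : z = y
      · rw [h2, Equiv.swap_apply_right]; exact hx
      · rw [Equiv.swap_apply_of_ne_of_ne h1 h2]; exact hz
  refine ⟨hm, (Equiv.injective _).injOn, fun z hz => ⟨Equiv.swap x y z, hm hz, ?_⟩⟩
  exact Equiv.swap_apply_self x y z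

theorem pf_KKH (CLF : T_CLF) (STC : T_STC) (UNQ : T_UNQ) (EIR : T_EIR) (EX0 : T_EX0)
    (SHM : T_SHM) (TEN : T_TEN) (GIG : T_GIG) : T_KKH := by
  intro Γ S J _ _ _ _ _ hS Z N π σ a hd hm ν hν hc F hF s hs c hcF
  obtain ⟨sh1, sh2, sh3⟩ := SHM Γ S J hS Z N π σ a hd hm ν hν s hs
  have stc := STC Γ S J hS Z N π σ a hd hm ν hν hc F hF
  obtain ⟨-, htr⟩ := EX0 S hS
  set h : J → (Γ → ℂ) → (Γ → ℂ) := fun i => shf (MM N π i) (pj N π i) s with hh
  have hHF : (fun i => h i (c i)) ∈ Fam N π ν := fun i => (sh2 i).mapsTo (hcF i)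
  have hnorm : ∀ c' ∈ Fam N π ν, F c' ∈ IrrS N := fun c' h' => (hF.bij.mapsTo h').1
  -- invariance in terms of the families
  have hinv : ∀ c' ∈ Fam N π ν, ∀ u : Γ, cj u (F c') = F c' ↔
      ∀ i, cj u (c' (σ u i)) = c' i := by
    intro c' hc' u
    obtain ⟨h1, h2⟩ := stc c' hc' u
    rw [h2]
    constructor
    · intro h3 i
      exact congrFun (hF.bij.injOn h1 hc' h3) i
    · intro h3
      congr 1
      funext i
      exact h3 i
  have hHinv : ∀ u : Γ, (∀ i, cj u (h (σ u i) (c (σ u i))) = h i (c i)) ↔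
      ∀ i, cj u (c (σ u i)) = c i := by
    intro u
    refine forall_congr' fun i => ?_
    obtain ⟨h1, h2, -⟩ := sh3 u i (c (σ u i)) (hcF (σ u i))
    show cj u (shf (MM N π (σ u i)) (pj N π (σ u i)) s (c (σ u i))) =
      shf (MM N π i) (pj N π i) s (c i) ↔ _
    rw [h2]
    exact ⟨fun h3 => (sh2 i).injOn h1 (hcF i) h3, fun h3 => by rw [h3]⟩
  have hst : stab ⊤ (F (fun i => h i (c i))) = stab ⊤ (F c) := by
    ext u
    rw [mem_stab, mem_stab, hinv _ hHF u, hinv _ hcF u]
    exact hHinv u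
  refine ⟨hst, ?_⟩
  set U : Subgroup Γ := stab ⊤ (F c) with hU
  have hNT : NIn N ⊤ := nin_of_normal hd.nor
  obtain ⟨hNU, hk1, -⟩ := CLF Γ N ⊤ hNT (F c) (hnorm c hcF)
  obtain ⟨-, hk2, -⟩ := CLF Γ N ⊤ hNT (F (fun i => h i (c i))) (hnorm _ hHF)
  rw [hst] at hk2
  have hNU' : NIn N U := ⟨hNU, fun u _ g hg => hd.nor.conj_mem g hg u⟩
  have hUinv : ∀ u ∈ U, ∀ i, cj u (c (σ u i)) = c i := fun u hu =>
    (hinv c hcF u).1 ((mem_stab u _).1 hu)
  -- existence of the decomposition is invariant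
  let Q : J → Prop := fun i => ∃ w : (Γ → ℂ) × (S → ℂ), EC (MM N π i) (pj N π i) w.1 w.2 (c i)
  have hQ1 : ∀ u ∈ U, ∀ i μ ε, EC (MM N π (σ u i)) (pj N π (σ u i)) μ ε (c (σ u i)) →
      EC (MM N π i) (pj N π i) (cj u μ) ε (c i) := by
    intro u hu i μ ε he
    have h1 := (sh3 u i (c (σ u i)) (hcF (σ u i))).2.2 μ ε he
    rwa [hUinv u hu i] at h1
  have hQ2 : ∀ u ∈ U, ∀ i, Q i → Q (σ u i) := by
    rintro u hu i ⟨⟨μ, ε⟩, he⟩
    have hsi : σ u⁻¹ (σ u i) = i := by
      rw [← Equiv.Perm.mul_apply, ← map_mul, inv_mul_cancel, map_one]; rfl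
    have hx : c i ∈ Ab (MM N π (σ u⁻¹ (σ u i))) ν := by rw [hsi]; exact hcF i
    have he' : EC (MM N π (σ u⁻¹ (σ u i))) (pj N π (σ u⁻¹ (σ u i))) μ ε (c i) := by
      rw [hsi]; exact he
    have h1 := (sh3 u⁻¹ (σ u i) (c i) hx).2.2 μ ε he'
    have h2 : cj u⁻¹ (c i) = c (σ u i) := by
      rw [← hUinv u hu i, cj_cj_inv]
    rw [h2] at h1
    exact ⟨(_, _), h1⟩
  let c0 : J → Γ → ℂ := fun i => if q : Q i then q.choose.1 else c i
  let ε : J → S → ℂ := fun i => if q : Q i then q.choose.2 else fun _ => 1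
  let ε' : J → S → ℂ := fun i => if q : Q i then s q.choose.2 else fun _ => 1
  have hpZ : ∀ i, ∀ z ∈ Z, pj N π i z = 1 := fun i z hz => (hm.ker i z (hm.zm i hz)).2 hz
  have hpm : ∀ i, ∀ x ∈ MM N π i, ∀ y ∈ MM N π i, pj N π i (x * y) = pj N π i x * pj N π i y :=
    fun i x hx y hy => hm.mul x (hm.mn i hx) y (hm.mn i hy) i
  have hc0 : c0 ∈ Fam N π ν := by
    intro i
    show (if q : Q i then q.choose.1 else c i) ∈ Ab (MM N π i) ν
    by_cases q : Q i
    · rw [dif_pos q]
      have he := q.choose_spec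
      obtain ⟨t1, t2, -⟩ := SHM Γ S J hS Z N π σ a hd hm ν hν
        (Equiv.swap q.choose.2 (fun _ => 1)) (bijOn_swap he.ext htr)
      have h1 := (t2 i).mapsTo (hcF i)
      rw [t1 i _ _ _ he] at h1
      have h2 : (fun g => q.choose.1 g * (Equiv.swap q.choose.2 (fun _ => 1)) q.choose.2
          (pj N π i g)) = q.choose.1 := by
        funext g
        rw [Equiv.swap_apply_left, mul_one]
      rwa [h2] at h1
    · rw [dif_neg q]
      exact hcF i
  -- equivariance
  have hequ : ∀ u ∈ U, ∀ i, cj u (c0 (σ u i)) = c0 i ∧ ε (σ u i) = ε i ∧ ε' (σ u i) = ε' i := by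
    intro u hu i
    by_cases q : Q (σ u i)
    · have q' : Q i := ⟨(_, _), hQ1 u hu i _ _ q.choose_spec⟩
      have he1 := hQ1 u hu i _ _ q.choose_spec
      have he2 := q'.choose_spec
      have h3 := UNQ Γ S Z (MM N π i) (pj N π i) (hm.zm i) (hm.prf i) (hpZ i) (hpm i) (hm.sur i)
        _ he1.mem _ he2.mem he1.one he2.one _ he1.ext.1 _ he2.ext.1
        (fun g _ => by
          have h4 := congrFun he1.eq g
          have h5 := congrFun he2.eq g
          rw [← h4, ← h5])
      refine ⟨?_, ?_, ?_⟩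
      · show cj u (if q : Q (σ u i) then q.choose.1 else c (σ u i)) =
          if q : Q i then q.choose.1 else c i
        rw [dif_pos q, dif_pos q']
        exact h3.1
      · show (if q : Q (σ u i) then q.choose.2 else fun _ => 1) =
          if q : Q i then q.choose.2 else fun _ => 1
        rw [dif_pos q, dif_pos q']
        exact h3.2
      · show (if q : Q (σ u i) then s q.choose.2 else fun _ => 1) =
          if q : Q i then s q.choose.2 else fun _ => 1
        rw [dif_pos q, dif_pos q', h3.2]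
    · have q' : ¬ Q i := fun h' => q (hQ2 u hu i h')
      refine ⟨?_, ?_, ?_⟩
      · show cj u (if q : Q (σ u i) then q.choose.1 else c (σ u i)) =
          if q : Q i then q.choose.1 else c i
        rw [dif_neg q, dif_neg q']
        exact hUinv u hu i
      · show (if q : Q (σ u i) then q.choose.2 else fun _ => 1) =
          if q : Q i then q.choose.2 else fun _ => 1
        rw [dif_neg q, dif_neg q']
      · show (if q : Q (σ u i) then s q.choose.2 else fun _ => 1) =
          if q : Q i then s q.choose.2 else fun _ => 1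
        rw [dif_neg q, dif_neg q']
  have hc0inv : ∀ u ∈ U, cj u (F c0) = F c0 := fun u hu =>
    (hinv c0 hc0 u).2 fun i => (hequ u hu i).1
  -- the general claim
  have key : ∀ (δ : J → S → ℂ), (∀ i, δ i ∈ Ext S) → (∀ u ∈ U, ∀ i, δ (σ u i) = δ i) →
      ∀ c' ∈ Fam N π ν, (∀ i g, c' i g = c0 i g * δ i (pj N π i g)) →
      kk U (F c') = kk U (F c0) := by
    intro δ hδ hδ' c' hc' he
    obtain ⟨τ, hτ, hτN⟩ := TEN Γ S J hS Z N π σ a hd U hNU δ hδ hδ'
    have h1 : F c' = fun g => F c0 g * τ g := by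
      funext g
      by_cases hg : g ∈ N
      · obtain ⟨z, hz, m, rfl⟩ := hm.gen hc g hg
        rw [hF.val c' hc' z hz m, hF.val c0 hc0 z hz m]
        obtain ⟨hmem, hpj⟩ := hm.prj hc z hz m
        have h2 : τ (z * Subgroup.noncommPiCoprod hc m) = ∏ i, δ i (pj N π i (m i)) := by
          have h3 := hτN ⟨z * Subgroup.noncommPiCoprod hc m, hg⟩
          rw [h3]
          refine Finset.prod_congr rfl fun i _ => ?_
          rw [← hpj i, pj, dif_pos hg]
        rw [h2, mul_assoc, ← Finset.prod_mul_distrib]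
        congr 1
        refine Finset.prod_congr rfl fun i _ => ?_
        exact he i (m i)
      · have h2 := (FI.Lib.lS1 Γ N (F c') (hnorm c' hc')).1 g hg
        have h3 := (FI.Lib.lS1 Γ N (F c0) (hnorm c0 hc0)).1 g hg
        rw [h2, h3, zero_mul]
    rw [h1]
    refine GIG Γ N U hNU' (F c0) (hnorm c0 hc0) hc0inv τ hτ ?_
    rw [← h1]
    exact hnorm c' hc'
  have hε : ∀ i, ε i ∈ Ext S := by
    intro i
    show (if q : Q i then q.choose.2 else fun _ => 1) ∈ Ext S
    by_cases q : Q i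
    · rw [dif_pos q]; exact q.choose_spec.ext
    · rw [dif_neg q]; exact htr
  have hε' : ∀ i, ε' i ∈ Ext S := by
    intro i
    show (if q : Q i then s q.choose.2 else fun _ => 1) ∈ Ext S
    by_cases q : Q i
    · rw [dif_pos q]; exact hs.mapsTo q.choose_spec.ext
    · rw [dif_neg q]; exact htr
  have k1 := key ε hε (fun u hu i => (hequ u hu i).2.1) c hcF (by
    intro i g
    show c i g = (if q : Q i then q.choose.1 else c i) g *
      (if q : Q i then q.choose.2 else fun _ => 1) (pj N π i g)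
    by_cases q : Q i
    · rw [dif_pos q, dif_pos q]
      exact congrFun q.choose_spec.eq g
    · rw [dif_neg q, dif_neg q, mul_one])
  have k2 := key ε' hε' (fun u hu i => (hequ u hu i).2.2) (fun i => h i (c i)) hHF (by
    intro i g
    show shf (MM N π i) (pj N π i) s (c i) g = (if q : Q i then q.choose.1 else c i) g *
      (if q : Q i then s q.choose.2 else fun _ => 1) (pj N π i g)
    by_cases q : Q i
    · rw [dif_pos q, dif_pos q, sh1 i _ _ _ q.choose_spec]
    · rw [dif_neg q, dif_neg q, mul_one]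
      rw [shf, dif_neg q])
  rw [← hk2, ← hk1]
  exact k2.trans k1.symm

end Pool.Agent.H53.FC
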