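import Pool.Agent.H6.FC.Lem

namespace Pool.Agent.H53.FC

open FI AMc AMt

theorem pf_SBD (SOL : T_SOL) (ACT : T_ACT) (DIX : T_DIX) : T_SBD := by
  intro Y _ _ hY L _ S _ _ hS k hk ⟨φ⟩
  classical
  obtain ⟨σ, a, h1, hcoc, hL, hker⟩ := ACT S Y hS L inferInstance k φ
  obtain ⟨-, hsolY, -, -⟩ := SOL Y
  obtain ⟨hsolQ, -, -, -⟩ := SOL (Y ⧸ L)
  have hnt : Nontrivial S := hS.sim.toNontrivial
  set C : Subgroup Y := Subgroup.centralizer (L : Set Y) with hC
  have hCm : ∀ c, c ∈ C ↔ ∀ l ∈ L, l * c = c * l := by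
    intro c
    rw [hC, Subgroup.mem_centralizer_iff]
    rfl
  have hCn : C.Normal := by
    refine ⟨fun c hc g => ?_⟩
    rw [hCm] at hc ⊢
    intro l hl
    have h2 : g⁻¹ * l * g ∈ L := by
      have := (inferInstance : L.Normal).conj_mem l hl g⁻¹
      rwa [inv_inv] at this
    have h3 := hc _ h2
    calc l * (g * c * g⁻¹) = g * ((g⁻¹ * l * g) * c) * g⁻¹ := by group
      _ = g * (c * (g⁻¹ * l * g)) * g⁻¹ := by rw [h3]
      _ = g * c * g⁻¹ * l := by group
  set B : Subgroup Y := σ.ker with hB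
  -- (1)
  have hCB : C ≤ B := by
    intro y hy
    rw [hCm] at hy
    rw [hB, MonoidHom.mem_ker]
    ext i
    by_contra hne
    have hne' : σ y i ≠ i := fun h => hne (by rw [h]; rfl)
    obtain ⟨s, hs⟩ := exists_ne (1 : S)
    have hc := hy (φ.symm (Pi.mulSingle (σ y i) s)) (φ.symm (Pi.mulSingle (σ y i) s)).2
    have h2 := h1 y (φ.symm (Pi.mulSingle (σ y i) s)) (φ.symm (Pi.mulSingle (σ y i) s))
      (by rw [← hc]; group) i
    rw [MulEquiv.apply_symm_apply, Pi.mulSingle_eq_same, Pi.mulSingle_eq_of_ne hne'.symm,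
      map_one] at h2
    exact hs h2
  -- (2)
  have hBσ : ∀ y : B, σ y = 1 := fun y => y.2
  let ψ : B →* (Fin k → MulAut S) :=
    { toFun := fun y i => a y i
      map_one' := by
        funext i
        have h2 := hcoc 1 1 i
        rw [mul_one, map_one, Equiv.Perm.one_apply] at h2
        show a ((1 : B) : Y) i = 1
        rw [Subgroup.coe_one]
        exact (mul_eq_left.1 h2.symm)
      map_mul' := by
        intro x y
        funext i
        show a ((x * y : B) : Y) i = a x i * a y i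
        rw [Subgroup.coe_mul, hcoc, hBσ y, Equiv.Perm.one_apply] }
  have hA : Finite (MulAut S) := inferInstance
  have hcB : Nat.card B ≤ Nat.card C * Nat.card (MulAut S) ^ k := by
    have h2 := ψ.ker.card_mul_index
    rw [Subgroup.index_ker] at h2
    have h3 : Nat.card ψ.ker ≤ Nat.card C := by
      refine Nat.card_le_card_of_injective
        (fun y : ψ.ker => (⟨((y : B) : Y), ?_⟩ : C)) ?_
      · rw [hCm]
        intro l hl
        have hy := y.2
        rw [MonoidHom.mem_ker] at hy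
        exact (hker ((y : B) : Y) (hBσ y) (fun i => congrFun hy i) l hl).symm
      · intro y y' h
        have := congrArg (fun z : C => (z : Y)) h
        exact Subtype.ext (Subtype.ext this)
    have h4 : Nat.card ψ.range ≤ Nat.card (MulAut S) ^ k := by
      refine (Subgroup.card_le_card_group _).trans ?_
      rw [Nat.card_fun, Nat.card_eq_fintype_card (α := Fin k), Fintype.card_fin]
    rw [← h2]
    exact Nat.mul_le_mul h3 h4
  have hcY : Nat.card Y = Nat.card σ.range * Nat.card B := by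
    have h2 := σ.ker.card_mul_index
    rw [Subgroup.index_ker] at h2
    rw [← h2, mul_comm]
  -- (3)
  set R : Subgroup Y := (sol (Y ⧸ L)).comap (QuotientGroup.mk' L) with hR
  have hLC : L ⊓ C = ⊥ := by
    rw [eq_bot_iff, ← hY]
    apply hsolY
    · exact Subgroup.normal_inf_normal L C
    · have hcom : ∀ x y : (L ⊓ C : Subgroup Y), x * y = y * x := by
        intro x y
        have hx := x.2
        have hy := y.2
        apply Subtype.ext
        exact (hCm _).1 hy.2 _ hx.1
      exact Group.isSolvable_of_comm hcom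
  have hsn : (sol (Y ⧸ L)).Normal := by
    have h2 : ∀ N ∈ {N : Subgroup (Y ⧸ L) | N.Normal ∧ Group.IsSolvable N}, N.Normal :=
      fun N hN => hN.1
    refine ⟨fun n hn g => ?_⟩
    have h3 : sol (Y ⧸ L) ≤ (sol (Y ⧸ L)).comap (MulAut.conj g).toMonoidHom := by
      refine sSup_le fun N hN x hx => ?_
      show g * x * g⁻¹ ∈ sol (Y ⧸ L)
      exact (le_sSup hN : N ≤ sol (Y ⧸ L)) (hN.1.conj_mem x hx g)
    exact h3 hn
  have hRn : R.Normal := by rw [hR]; infer_instance
  have hRC : R ⊓ C = ⊥ := by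
    rw [eq_bot_iff, ← hY]
    apply hsolY
    · exact Subgroup.normal_inf_normal R C
    · let g : (R ⊓ C : Subgroup Y) →* sol (Y ⧸ L) :=
        { toFun := fun x => ⟨QuotientGroup.mk' L x, x.2.1⟩
          map_one' := rfl
          map_mul' := fun x y => rfl }
      have hgi : Function.Injective g := by
        rw [injective_iff_map_eq_one]
        intro x hx
        have h2 : QuotientGroup.mk' L (x : Y) = 1 := congrArg (fun z : sol (Y ⧸ L) => (z : Y ⧸ L)) hx
        have h3 : (x : Y) ∈ L := by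
          rwa [← MonoidHom.mem_ker, QuotientGroup.ker_mk'] at h2
        have h4 : (x : Y) ∈ L ⊓ C := ⟨h3, x.2.2⟩
        rw [hLC, Subgroup.mem_bot] at h4
        exact Subtype.ext h4
      exact Group.isSolvable_of_isSolvable_injective hgi
  -- (4)
  have hRi : R.index = (sol (Y ⧸ L)).index :=
    Subgroup.index_comap_of_surjective _ (QuotientGroup.mk'_surjective L)
  have h4 : R.index = (R ⊔ C).index * Nat.card C := by
    rw [idx_sup R C, ← Subgroup.inf_relIndex_right, hRC, Subgroup.relIndex_bot_left]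
  -- (5)
  have hσL : ∀ l ∈ L, σ l = 1 := fun l hl => (hL ⟨l, hl⟩).1
  let f : sol (Y ⧸ L) →* Equiv.Perm (Fin k) :=
    (QuotientGroup.lift L σ hσL).comp (sol (Y ⧸ L)).subtype
  have hfr : f.range = R.map σ := by
    have h2 : R.map (QuotientGroup.mk' L) = sol (Y ⧸ L) := by
      rw [hR, Subgroup.map_comap_eq_self_of_surjective (QuotientGroup.mk'_surjective L)]
    have h3 : (QuotientGroup.lift L σ hσL).comp (QuotientGroup.mk' L) = σ := by
      ext x; rfl
    show ((QuotientGroup.lift L σ hσL).comp (sol (Y ⧸ L)).subtype).range = R.map σ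
    rw [MonoidHom.range_comp, Subgroup.range_subtype]
    conv_lhs => rw [← h2]
    rw [Subgroup.map_map, h3]
  have hne : Nonempty (Fin k) := ⟨⟨0, hk⟩⟩
  have h5 : (Nat.card (R.map σ) : ℝ) ≤ c0 ^ (k - 1) := by
    have h2 := DIX (sol (Y ⧸ L)) (Fin k) f hsolQ
    rw [Subgroup.index_ker, hfr, Nat.card_eq_fintype_card (α := Fin k), Fintype.card_fin] at h2
    exact h2
  -- (6)
  have h6 : Nat.card σ.range = Nat.card (R.map σ) * (R ⊔ B).index := by
    have hle : R.map σ ≤ σ.range := Subgroup.map_le_range σ R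
    have h2 := Subgroup.relIndex_mul_index hle
    rw [Subgroup.index_map] at h2
    have h3 : σ.range.index ≠ 0 := Subgroup.index_ne_zero_of_finite
    have h7 : (R.map σ).relIndex σ.range = (R ⊔ B).index :=
      Nat.eq_of_mul_eq_mul_right (Nat.pos_of_ne_zero h3) h2
    rw [← h7]
    have h8 := Subgroup.relIndex_mul_relIndex (⊥ : Subgroup (Equiv.Perm (Fin k))) (R.map σ) σ.range
      bot_le hle
    rw [Subgroup.relIndex_bot_left, Subgroup.relIndex_bot_left] at h8
    exact h8.symm
  have h7 : (R ⊔ B).index ≤ (R ⊔ C).index :=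
    Nat.le_of_dvd (Nat.pos_of_ne_zero Subgroup.index_ne_zero_of_finite)
      (Subgroup.index_dvd_of_le (sup_le_sup_left hCB R))
  have hfin : (Nat.card Y : ℝ) ≤ (Nat.card (R.map σ) : ℝ) * ((R ⊔ C).index : ℝ) *
      ((Nat.card C : ℝ) * (Nat.card (MulAut S) : ℝ) ^ k) := by
    have : Nat.card Y ≤ Nat.card (R.map σ) * (R ⊔ C).index *
        (Nat.card C * Nat.card (MulAut S) ^ k) := by
      rw [hcY, h6]
      exact Nat.mul_le_mul (Nat.mul_le_mul_left _ h7) hcB
    exact_mod_cast this
  refine hfin.trans ?_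
  rw [← hRi, h4]
  push_cast
  have hpos : 0 ≤ ((R ⊔ C).index : ℝ) * ((Nat.card C : ℝ) * (Nat.card (MulAut S) : ℝ) ^ k) := by
    positivity
  calc (Nat.card (R.map σ) : ℝ) * ((R ⊔ C).index : ℝ) *
      ((Nat.card C : ℝ) * (Nat.card (MulAut S) : ℝ) ^ k)
      = (Nat.card (R.map σ) : ℝ) * (((R ⊔ C).index : ℝ) *
          ((Nat.card C : ℝ) * (Nat.card (MulAut S) : ℝ) ^ k)) := by ring
    _ ≤ c0 ^ (k - 1) * (((R ⊔ C).index : ℝ) *
          ((Nat.card C : ℝ) * (Nat.card (MulAut S) : ℝ) ^ k)) :=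
        mul_le_mul_of_nonneg_right h5 hpos
    _ = _ := by ring

end Pool.Agent.H53.FC
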