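import Pool.Agent.H6.FC.Lem
import Pool.Agent.H6.FI.Lib
import Pool.Agent.H72.FI.ABL
import Pool.Agent.H94.FI.LCH

open scoped Classical ComplexConjugate

namespace Pool.Agent.H53.FC

open FI AMc AMt

/-- the set of the irreducible characters of a finite group is finite -/
theorem sym_irr_fin (S : Type) [Group S] [Finite S] : (Irr S).Finite := by
  have : Fintype S := Fintype.ofFinite S
  obtain ⟨fs, hfs, -⟩ := FI.Lib.lS9 S (⊤ : Subgroup S)
  refine (Finset.finite_toSet fs).subset fun χ hχ => Finset.mem_coe.2 ((hfs χ).2 ?_)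
  refine FI.Lib.lS10 S ⊤ χ (fun g hg => absurd (Subgroup.mem_top g) hg) ?_ ?_
  · exact FI.Lib.lA4.2.1 _ S (⊤ : Subgroup S).subtype χ ((FI.Lib.lA3 S).1 χ hχ).1
  · rw [FI.Lib.lA1 S χ χ hχ hχ, if_pos rfl, Subgroup.card_top]

theorem pf_SYM (MMF : T_MMF) (CPM : T_CPM) (EX0 : T_EX0) (_UNQ : T_UNQ) (_EIR : T_EIR)
    (SHM : T_SHM) (KKH : T_KKH) (AGM : T_AGM) (CYC : T_CYC) (KKP : T_KKP) : T_SYM := by
  intro e Γ S J _ _ _ _ _ hS Z N π σ a hd ν hν
  have hNAS : NAS S := ⟨hS.sim, hS.nab⟩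
  have hm := MMF Γ S J hNAS Z N π σ a hd
  have hc := hm.com
  obtain ⟨F, hF⟩ := CPM Γ S J hNAS Z N π σ a hd hm ν hν hc
  obtain ⟨-, htr⟩ := EX0 S hNAS
  have hExt : (Ext S).Finite := (sym_irr_fin S).subset fun ε hε => hε.1
  obtain ⟨s, hs, hcyc⟩ := CYC (S → ℂ) (Ext S) hExt ⟨_, htr⟩
  set n := (Ext S).ncard with hn
  have hn1 : 1 ≤ n := (Set.ncard_pos hExt).2 ⟨_, htr⟩
  have hg0 : 0 ≤ gg e S := by
    unfold gg
    positivity
  obtain ⟨sh1, sh2, -⟩ := SHM Γ S J hNAS Z N π σ a hd hm ν hν s hs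
  have hdeg : ∀ i, ∀ x ∈ Ab (MM N π i) ν, ∃ d : ℕ, 0 < d ∧ x 1 = d := fun i x hx =>
    (FI.Lib.lS1 Γ (MM N π i) x hx.1).2.2.1
  have hν1 : ν 1 = 1 :=
    (Pool.Agent.H72.FI.pf_ABL Γ Z (fun x hx y _ => hd.cen x hx y) ν hν).1
  have hp1 : ∀ i, pj N π i 1 = 1 := fun i =>
    (hm.ker i 1 (MM N π i).one_mem).2 Z.one_mem
  -- the geometric mean along the orbits
  have hgm : ∀ i, ∀ x ∈ Ab (MM N π i) ν, gg e S ^ n ≤
      ∏ j ∈ Finset.range n, (((shf (MM N π i) (pj N π i) s)^[j] x) 1).re := by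
    intro i x hx
    by_cases q : ∃ w : (Γ → ℂ) × (S → ℂ), EC (MM N π i) (pj N π i) w.1 w.2 x
    · obtain ⟨⟨μ, ε⟩, he⟩ := q
      have hit : ∀ j : ℕ, EC (MM N π i) (pj N π i) μ (s^[j] ε)
          ((shf (MM N π i) (pj N π i) s)^[j] x) := by
        intro j
        induction j with
        | zero => exact he
        | succ j ih =>
          rw [Function.iterate_succ_apply', Function.iterate_succ_apply', sh1 i _ _ _ ih]
          exact ⟨ih.mem, ih.one, hs.mapsTo ih.ext, rfl⟩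
      have h1 : ∀ j ∈ Finset.range n, (((shf (MM N π i) (pj N π i) s)^[j] x) 1).re =
          (fun δ : S → ℂ => (δ 1).re) (s^[j] ε) := by
        intro j _
        have h2 := congrFun (hit j).eq 1
        rw [h2, (hit j).one, one_mul, hp1]
      rw [Finset.prod_congr rfl h1, hcyc ε he.ext (fun δ : S → ℂ => (δ 1).re)]
      exact hS.gmd
    · have h1 : ∀ j : ℕ, (shf (MM N π i) (pj N π i) s)^[j] x = x := by
        intro j
        induction j with
        | zero => rfl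
        | succ j ih =>
          rw [Function.iterate_succ_apply', ih, shf, dif_neg q]
      have h2 : gg e S ≤ (x 1).re := by
        let πi : MM N π i →* S :=
          { toFun := fun m => pj N π i m
            map_one' := hp1 i
            map_mul' := fun m m' => hm.mul m (hm.mn i m.2) m' (hm.mn i m'.2) i }
        have h3 := hS.deg (MM N π i) πi (fun t => by
            obtain ⟨y, hy, hyt⟩ := hm.sur i t
            exact ⟨⟨y, hy⟩, hyt⟩) (fun m hmk => by
            rw [MonoidHom.mem_ker] at hmk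
            have h4 : (m : Γ) ∈ Z := (hm.ker i m m.2).1 hmk
            rw [Subgroup.mem_center_iff]
            intro m'
            exact Subtype.ext (hd.cen m h4 m').symm)
          (fun m => x m) (FI.Lib.lS1 Γ (MM N π i) x hx.1).2.2.2.2.2
        rcases h3 with h3 | ⟨μ, ε, hε, h3⟩
        · exact h3
        · exfalso
          apply q
          refine ⟨(ext0 (MM N π i) (fun m => ((μ m : ℂˣ) : ℂ)), ε),
            ⟨⟨_, Pool.Agent.H94.FI.pf_LCH (MM N π i) μ, rfl⟩, ?_, hε, ?_⟩⟩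
          · show (if h : (1 : Γ) ∈ MM N π i then ((μ ⟨1, h⟩ : ℂˣ) : ℂ) else 0) = 1
            rw [dif_pos (MM N π i).one_mem]
            have : (⟨1, (MM N π i).one_mem⟩ : MM N π i) = 1 := rfl
            rw [this, map_one, Units.val_one]
          · funext g
            show x g = (if h : g ∈ MM N π i then ((μ ⟨g, h⟩ : ℂˣ) : ℂ) else 0) * ε (pj N π i g)
            by_cases hg : g ∈ MM N π i
            · rw [dif_pos hg]
              exact h3 ⟨g, hg⟩
            · rw [dif_neg hg, zero_mul]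
              exact (FI.Lib.lS1 Γ (MM N π i) x hx.1).1 g hg
      rw [Finset.prod_congr rfl fun j _ => by rw [h1 j], Finset.prod_const, Finset.card_range]
      exact pow_le_pow_left₀ hg0 h2 n
  have hA := AGM J (Γ → ℂ) (fun i => Ab (MM N π i) ν)
    (fun i => shf (MM N π i) (pj N π i) s) (fun _ x => (x 1).re) n (gg e S)
    (fun c => (kk ⊤ (F c) : ℝ) / (stab ⊤ (F c)).index) hn1 hg0
    (fun i => (KKP Γ Z (MM N π i) (hm.zm i) ν hν).1) sh2
    (fun i x hx => by
      obtain ⟨d, hd0, hd1⟩ := hdeg i x hx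
      show 0 < (x 1).re
      rw [hd1, Complex.natCast_re]
      exact_mod_cast hd0) hgm
    (fun c hcF => by
      refine ⟨by positivity, ?_⟩
      obtain ⟨h1, h2⟩ := KKH Γ S J hNAS Z N π σ a hd hm ν hν hc F hF s hs c hcF
      show (kk ⊤ (F (fun i => shf (MM N π i) (pj N π i) s (c i))) : ℝ) /
        (stab ⊤ (F (fun i => shf (MM N π i) (pj N π i) s (c i)))).index = _
      rw [h1, h2])
  have hset : {c : J → Γ → ℂ | ∀ i, c i ∈ Ab (MM N π i) ν} = Fam N π ν := rfl
  rw [hset] at hA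
  have t1 : ∑ᶠ c ∈ Fam N π ν, (kk ⊤ (F c) : ℝ) / (stab ⊤ (F c)).index =
      ∑ᶠ ψ ∈ Ab N ν, (kk ⊤ ψ : ℝ) / (stab ⊤ ψ).index :=
    finsum_mem_eq_of_bijOn F hF.bij fun c _ => rfl
  have t2 : ∑ᶠ c ∈ Fam N π ν, (kk ⊤ (F c) : ℝ) / (stab ⊤ (F c)).index * ∏ i, (c i 1).re =
      ∑ᶠ ψ ∈ Ab N ν, (ψ 1).re * ((kk ⊤ ψ : ℝ) / (stab ⊤ ψ).index) := by
    refine finsum_mem_eq_of_bijOn F hF.bij fun c hcF => ?_
    have h1 := hF.val c hcF 1 Z.one_mem 1
    rw [map_one, mul_one, hν1, one_mul] at h1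
    have h2 : ∀ i, ((1 : ∀ i, MM N π i) i : Γ) = 1 := fun i => rfl
    have h3 : (F c 1).re = ∏ i, (c i 1).re := by
      rw [h1]
      choose d hd0 hd1 using fun i => hdeg i (c i) (hcF i)
      have h4 : (∏ i, c i ((1 : ∀ i, MM N π i) i : Γ)) = ((∏ i, d i : ℕ) : ℂ) := by
        push_cast
        exact Finset.prod_congr rfl fun i _ => by rw [h2 i, hd1 i]
      rw [h4, Complex.natCast_re]
      push_cast
      exact Finset.prod_congr rfl fun i _ => by rw [hd1 i, Complex.natCast_re]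
    rw [h3, mul_comm]
  rw [Nat.card_eq_fintype_card, ← t1, ← t2]
  exact hA

end Pool.Agent.H53.FC
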